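import Mathlib

/-!
# Approximately invariant averages for the group of isometries of the plane

`z ↦ τ + α z` and `z ↦ τ + α conj z`, with `α conj α = 1`.
-/

namespace Pool.Agent.H18FC

open Finset

/-- Approximately invariant families in commutative monoids. -/
theorem ab_aux {M : Type*} [CommMonoid M] [DecidableEq M] (δ : ℝ) (hδ : 0 < δ) (H : Finset M) :
    ∃ (ι : Type) (_ : Fintype ι) (p : ι → M), 0 < Fintype.card ι ∧
      (∀ P : M → Prop, P 1 → (∀ a b, P a → P b → P (a * b)) → (∀ h ∈ H, P h) → ∀ i, P (p i)) ∧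
      ∀ h ∈ H, ∀ F : M → ℝ, (∀ g, |F g| ≤ 1) →
        |∑ i, F (p i * h) - ∑ i, F (p i)| ≤ δ * Fintype.card ι := by
  induction H using Finset.induction_on with
  | empty =>
    refine ⟨Unit, inferInstance, fun _ => 1, by simp, fun _ h1 _ _ _ => h1, ?_⟩
    intro h hh
    simp at hh
  | insert a H _ ih =>
    obtain ⟨ι, hι, p, hpos, hmem, hp⟩ := ih
    obtain ⟨m, hm⟩ := exists_nat_gt (2 / δ)
    have hm0 : (0 : ℝ) < m := lt_trans (by positivity) hm
    have hm0' : 0 < m := by exact_mod_cast hm0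
    refine ⟨ι × Fin m, inferInstance, fun q => p q.1 * a ^ (q.2 : ℕ), ?_, ?_, ?_⟩
    · rw [Fintype.card_prod, Fintype.card_fin]
      exact Nat.mul_pos hpos hm0'
    · intro P h1 hmul hH q
      refine hmul _ _ (hmem P h1 hmul (fun h hh => hH h (Finset.mem_insert_of_mem hh)) q.1) ?_
      have hpow : ∀ n : ℕ, P (a ^ n) := by
        intro n
        induction n with
        | zero => rw [pow_zero]; exact h1
        | succ n ih => rw [pow_succ]; exact hmul _ _ ih (hH a (Finset.mem_insert_self _ _))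
      exact hpow _
    · intro h hh F hF
      rw [Fintype.card_prod, Fintype.card_fin, Nat.cast_mul]
      rcases Finset.mem_insert.1 hh with rfl | hh'
      · -- telescoping
        rw [Fintype.sum_prod_type, Fintype.sum_prod_type, ← Finset.sum_sub_distrib]
        have hi : ∀ i : ι, (∑ n : Fin m, F (p i * h ^ (n : ℕ) * h)) -
            ∑ n : Fin m, F (p i * h ^ (n : ℕ)) = F (p i * h ^ m) - F (p i) := by
          intro i
          have e1 : ∑ n : Fin m, F (p i * h ^ (n : ℕ) * h) =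
              ∑ n ∈ Finset.range m, F (p i * h ^ (n + 1)) := by
            rw [← Fin.sum_univ_eq_sum_range (fun n => F (p i * h ^ (n + 1)))]
            refine Finset.sum_congr rfl fun n _ => ?_
            rw [mul_assoc, ← pow_succ]
          have e2 : ∑ n : Fin m, F (p i * h ^ (n : ℕ)) =
              ∑ n ∈ Finset.range m, F (p i * h ^ n) := by
            rw [← Fin.sum_univ_eq_sum_range (fun n => F (p i * h ^ n))]
          rw [e1, e2, ← Finset.sum_sub_distrib,
            Finset.sum_range_sub (fun n => F (p i * h ^ n))]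
          simp
        have hb : ∀ i : ι, |(∑ n : Fin m, F (p i * h ^ (n : ℕ) * h)) -
            ∑ n : Fin m, F (p i * h ^ (n : ℕ))| ≤ 2 := by
          intro i
          rw [hi i]
          have h1 := abs_sub (F (p i * h ^ m)) (F (p i))
          have h2 := hF (p i * h ^ m)
          have h3 := hF (p i)
          linarith
        calc |∑ i : ι, ((∑ n : Fin m, F (p i * h ^ (n : ℕ) * h)) -
              ∑ n : Fin m, F (p i * h ^ (n : ℕ)))|
            ≤ ∑ i : ι, |(∑ n : Fin m, F (p i * h ^ (n : ℕ) * h)) -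
              ∑ n : Fin m, F (p i * h ^ (n : ℕ))| := Finset.abs_sum_le_sum_abs _ _
          _ ≤ ∑ _i : ι, (2 : ℝ) := Finset.sum_le_sum fun i _ => hb i
          _ = 2 * Fintype.card ι := by
              rw [Finset.sum_const, Finset.card_univ, nsmul_eq_mul, mul_comm]
          _ ≤ δ * (Fintype.card ι * m) := by
              have h4 : 2 ≤ δ * m := by
                rw [div_lt_iff₀ hδ] at hm
                linarith
              have h5 : (0 : ℝ) ≤ Fintype.card ι := Nat.cast_nonneg _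
              nlinarith
      · rw [Fintype.sum_prod_type_right, Fintype.sum_prod_type_right,
          ← Finset.sum_sub_distrib]
        have hn : ∀ n : Fin m, |(∑ i : ι, F (p i * a ^ (n : ℕ) * h)) -
            ∑ i : ι, F (p i * a ^ (n : ℕ))| ≤ δ * Fintype.card ι := by
          intro n
          have h1 := hp h hh' (fun g => F (g * a ^ (n : ℕ))) (fun g => hF _)
          have e1 : ∑ i : ι, F (p i * a ^ (n : ℕ) * h) = ∑ i : ι, F (p i * h * a ^ (n : ℕ)) := by
            refine Finset.sum_congr rfl fun i _ => ?_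
            rw [mul_right_comm]
          rw [e1]
          exact h1
        calc |∑ n : Fin m, ((∑ i : ι, F (p i * a ^ (n : ℕ) * h)) -
              ∑ i : ι, F (p i * a ^ (n : ℕ)))|
            ≤ ∑ n : Fin m, |(∑ i : ι, F (p i * a ^ (n : ℕ) * h)) -
              ∑ i : ι, F (p i * a ^ (n : ℕ))| := Finset.abs_sum_le_sum_abs _ _
          _ ≤ ∑ _n : Fin m, δ * Fintype.card ι := Finset.sum_le_sum fun n _ => hn n
          _ = δ * (Fintype.card ι * m) := by
              rw [Finset.sum_const, Finset.card_univ, Fintype.card_fin, nsmul_eq_mul]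
              ring

/-- the additive form -/
theorem ab_add {A : Type*} [AddCommMonoid A] [DecidableEq A] (δ : ℝ) (hδ : 0 < δ)
    (H : Finset A) :
    ∃ (ι : Type) (_ : Fintype ι) (p : ι → A), 0 < Fintype.card ι ∧
      (∀ P : A → Prop, P 0 → (∀ a b, P a → P b → P (a + b)) → (∀ h ∈ H, P h) → ∀ i, P (p i)) ∧
      ∀ h ∈ H, ∀ F : A → ℝ, (∀ g, |F g| ≤ 1) →
        |∑ i, F (p i + h) - ∑ i, F (p i)| ≤ δ * Fintype.card ι := by
  obtain ⟨ι, hι, p, h1, h2, h3⟩ := ab_aux (M := Multiplicative A) δ hδ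
    (H.map Multiplicative.ofAdd.toEmbedding)
  refine ⟨ι, hι, fun i => (p i).toAdd, h1, ?_, ?_⟩
  · intro P hP0 hP hH i
    refine h2 (fun x => P x.toAdd) hP0 (fun a b ha hb => hP _ _ ha hb) ?_ i
    intro h hh
    obtain ⟨a, ha, rfl⟩ := Finset.mem_map.1 hh
    exact hH a ha
  · intro h hh F hF
    have := h3 (Multiplicative.ofAdd h) (Finset.mem_map.2 ⟨h, hh, rfl⟩) (fun x => F x.toAdd)
      (fun g => hF _)
    simpa using this

/-! ### Isometries

The plane over a subfield of `Q(sqrt 33, sqrt (-3))` is embedded in `ℂ × ℂ` (the second coordinate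
is the Galois conjugate). -/

/-- complex conjugation in both coordinates -/
noncomputable def cc : ℂ × ℂ →+* ℂ × ℂ := RingHom.prodMap (starRingEnd ℂ) (starRingEnd ℂ)

/-- the group generated by conjugation (`s.1`) and by the exchange of the coordinates (`s.2`) -/
noncomputable def cj (s : Bool × Bool) (z : ℂ × ℂ) : ℂ × ℂ :=
  if s.2 then (if s.1 then cc z else z).swap else (if s.1 then cc z else z)

/-- the maps `z ↦ τ + α * cj s z` -/
structure Mov where
  α : ℂ × ℂ
  τ : ℂ × ℂ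
  s : Bool × Bool

/-- the action on the plane -/
noncomputable def Mov.act (g : Mov) (z : ℂ × ℂ) : ℂ × ℂ := g.τ + g.α * cj g.s z

/-- composition of the flags -/
def fl (s t : Bool × Bool) : Bool × Bool := (xor s.1 t.1, xor s.2 t.2)

/-- composition -/
noncomputable def Mov.mul (g h : Mov) : Mov :=
  ⟨g.α * cj g.s h.α, g.τ + g.α * cj g.s h.τ, fl g.s h.s⟩

theorem cj_add (s : Bool × Bool) (z w : ℂ × ℂ) : cj s (z + w) = cj s z + cj s w := by
  rcases s with ⟨s, t⟩
  cases s <;> cases t <;> simp [cj]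

theorem cj_mul (s : Bool × Bool) (z w : ℂ × ℂ) : cj s (z * w) = cj s z * cj s w := by
  rcases s with ⟨s, t⟩
  cases s <;> cases t <;> simp [cj]

theorem cj_sub (s : Bool × Bool) (z w : ℂ × ℂ) : cj s (z - w) = cj s z - cj s w := by
  rcases s with ⟨s, t⟩
  cases s <;> cases t <;> simp [cj]

theorem cc_cc (z : ℂ × ℂ) : cc (cc z) = z := by
  rcases z with ⟨z, w⟩
  simp [cc]

theorem cj_cj (s t : Bool × Bool) (z : ℂ × ℂ) : cj s (cj t z) = cj (fl s t) z := by
  rcases s with ⟨s, s'⟩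
  rcases t with ⟨t, t'⟩
  rcases z with ⟨z, w⟩
  cases s <;> cases s' <;> cases t <;> cases t' <;> simp [cj, fl, cc]

theorem act_mul (g h : Mov) (z : ℂ × ℂ) : (g.mul h).act z = g.act (h.act z) := by
  unfold Mov.act Mov.mul
  simp only [cj_add, cj_mul, cj_cj]
  ring

/-- both coordinates have absolute value `1` -/
def Un (z : ℂ × ℂ) : Prop := z * cc z = 1

theorem un_cj {s : Bool × Bool} {z : ℂ × ℂ} (h : Un z) : Un (cj s z) := by
  unfold Un at h ⊢
  have h1 : z.1 * (starRingEnd ℂ) z.1 = 1 := by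
    have := congrArg Prod.fst h
    simpa [cc] using this
  have h2 : z.2 * (starRingEnd ℂ) z.2 = 1 := by
    have := congrArg Prod.snd h
    simpa [cc] using this
  have h1' : (starRingEnd ℂ) z.1 * z.1 = 1 := by rw [mul_comm]; exact h1
  have h2' : (starRingEnd ℂ) z.2 * z.2 = 1 := by rw [mul_comm]; exact h2
  rcases s with ⟨s, t⟩
  apply Prod.ext <;> cases s <;> cases t <;> simp [cj, cc, h1, h2, h1', h2']

theorem un_mul {z w : ℂ × ℂ} (hz : Un z) (hw : Un w) : Un (z * w) := by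
  unfold Un at hz hw ⊢
  rw [map_mul]
  calc z * w * (cc z * cc w) = (z * cc z) * (w * cc w) := by ring
    _ = 1 := by rw [hz, hw, one_mul]

theorem un_act {g : Mov} (hg : Un g.α) {z w : ℂ × ℂ} (h : Un (z - w)) :
    Un (g.act z - g.act w) := by
  have e : g.act z - g.act w = g.α * cj g.s (z - w) := by
    unfold Mov.act
    rw [cj_sub]
    ring
  rw [e]
  exact un_mul hg (un_cj h)

/-- exchange of flags -/
def flPerm (t : Bool × Bool) : Equiv.Perm (Bool × Bool) where
  toFun s := fl s t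
  invFun s := fl s t
  left_inv s := by
    rcases s with ⟨s, s'⟩
    rcases t with ⟨t, t'⟩
    cases s <;> cases s' <;> cases t <;> cases t' <;> rfl
  right_inv s := by
    rcases s with ⟨s, s'⟩
    rcases t with ⟨t, t'⟩
    cases s <;> cases s' <;> cases t <;> cases t' <;> rfl

theorem foelner {κ : Type} [Fintype κ] (R : Subring (ℂ × ℂ))
    (hR : ∀ z ∈ R, ∀ s, cj s z ∈ R)
    (h : κ → Mov) (hα : ∀ j, (h j).α ∈ R) (hτ : ∀ j, (h j).τ ∈ R)
    (h1 : ∀ j, Un (h j).α) (δ : ℝ) (hδ : 0 < δ) :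
    ∃ (ι : Type) (_ : Fintype ι) (p : ι → Mov), 0 < Fintype.card ι ∧
      (∀ i, (p i).α ∈ R ∧ (p i).τ ∈ R ∧ Un (p i).α) ∧
      ∀ j, ∀ F : Mov → ℝ, (∀ g, |F g| ≤ 1) →
        |∑ i, F ((p i).mul (h j)) - ∑ i, F (p i)| ≤ δ * Fintype.card ι := by
  classical
  obtain ⟨ι₁, hι₁, p₁, hc₁, hm₁, hp₁⟩ := ab_aux (M := ℂ × ℂ) (δ / 2) (by positivity)
    ((Finset.univ : Finset ((Bool × Bool) × κ)).image fun q => cj q.1 (h q.2).α)
  obtain ⟨ι₂, hι₂, p₂, hc₂, hm₂, hp₂⟩ := ab_add (A := ℂ × ℂ) (δ / 2) (by positivity)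
    ((Finset.univ : Finset (ι₁ × (Bool × Bool) × κ)).image
      fun q => p₁ q.1 * cj q.2.1 (h q.2.2).τ)
  have hR₁ : ∀ i, p₁ i ∈ R := by
    refine hm₁ (fun z => z ∈ R) (Subring.one_mem R) (fun a b ha hb => Subring.mul_mem R ha hb) ?_
    intro z hz
    obtain ⟨q, _, rfl⟩ := Finset.mem_image.1 hz
    exact hR _ (hα _) _
  have hN₁ : ∀ i, Un (p₁ i) := by
    refine hm₁ (fun z => Un z) (by simp [Un]) (fun a b ha hb => un_mul ha hb) ?_
    intro z hz
    obtain ⟨q, _, rfl⟩ := Finset.mem_image.1 hz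
    exact un_cj (h1 _)
  have hR₂ : ∀ k, p₂ k ∈ R := by
    refine hm₂ (fun z => z ∈ R) (Subring.zero_mem R) (fun a b ha hb => Subring.add_mem R ha hb) ?_
    intro z hz
    obtain ⟨q, _, rfl⟩ := Finset.mem_image.1 hz
    exact Subring.mul_mem R (hR₁ _) (hR _ (hτ _) _)
  refine ⟨(Bool × Bool) × ι₁ × ι₂, inferInstance, fun q => ⟨p₁ q.2.1, p₂ q.2.2, q.1⟩, ?_, ?_, ?_⟩
  · simp only [Fintype.card_prod, Fintype.card_bool]
    positivity
  · intro q
    exact ⟨hR₁ _, hR₂ _, hN₁ _⟩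
  · intro j F hF
    have hsum : ∀ G : Bool × Bool → ι₁ → ι₂ → ℝ, ∑ q : (Bool × Bool) × ι₁ × ι₂,
        G q.1 q.2.1 q.2.2 = ∑ s, ∑ i, ∑ k, G s i k := by
      intro G
      rw [Fintype.sum_prod_type]
      refine Finset.sum_congr rfl fun s _ => ?_
      rw [Fintype.sum_prod_type]
    have hs1 := hsum (fun s i k => F ⟨p₁ i * cj s (h j).α, p₂ k + p₁ i * cj s (h j).τ,
      fl s (h j).s⟩)
    have hs2 := hsum (fun s i k => F ⟨p₁ i, p₂ k, s⟩)
    simp only [Mov.mul]
    rw [hs1, hs2, Fintype.card_prod, Fintype.card_prod, Fintype.card_prod, Fintype.card_bool]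
    push_cast
    set c₁ : ℝ := (Fintype.card ι₁ : ℝ) with hc₁'
    set c₂ : ℝ := (Fintype.card ι₂ : ℝ) with hc₂'
    -- step A
    have hA : ∀ s : Bool × Bool, |(∑ i : ι₁, ∑ k : ι₂, F ⟨p₁ i * cj s (h j).α,
          p₂ k + p₁ i * cj s (h j).τ, fl s (h j).s⟩) -
        ∑ i : ι₁, ∑ k : ι₂, F ⟨p₁ i * cj s (h j).α, p₂ k, fl s (h j).s⟩| ≤
          c₁ * (δ / 2 * c₂) := by
      intro s
      rw [← Finset.sum_sub_distrib]
      calc _ ≤ ∑ i : ι₁, |(∑ k : ι₂, F ⟨p₁ i * cj s (h j).α, p₂ k + p₁ i * cj s (h j).τ,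
              fl s (h j).s⟩) - ∑ k : ι₂, F ⟨p₁ i * cj s (h j).α, p₂ k, fl s (h j).s⟩| :=
            Finset.abs_sum_le_sum_abs _ _
        _ ≤ ∑ _i : ι₁, δ / 2 * c₂ := by
            refine Finset.sum_le_sum fun i _ => ?_
            exact hp₂ _ (Finset.mem_image.2 ⟨(i, s, j), Finset.mem_univ _, rfl⟩)
              (fun t => F ⟨p₁ i * cj s (h j).α, t, fl s (h j).s⟩) (fun g => hF _)
        _ = c₁ * (δ / 2 * c₂) := by
            rw [Finset.sum_const, Finset.card_univ, nsmul_eq_mul]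
    -- step B
    have hB : ∀ s : Bool × Bool, |(∑ i : ι₁, ∑ k : ι₂, F ⟨p₁ i * cj s (h j).α, p₂ k,
          fl s (h j).s⟩) - ∑ i : ι₁, ∑ k : ι₂, F ⟨p₁ i, p₂ k, fl s (h j).s⟩| ≤
          c₂ * (δ / 2 * c₁) := by
      intro s
      rw [Finset.sum_comm, Finset.sum_comm (f := fun i k => F ⟨p₁ i, p₂ k, fl s (h j).s⟩),
        ← Finset.sum_sub_distrib]
      calc _ ≤ ∑ k : ι₂, |(∑ i : ι₁, F ⟨p₁ i * cj s (h j).α, p₂ k, fl s (h j).s⟩) -
              ∑ i : ι₁, F ⟨p₁ i, p₂ k, fl s (h j).s⟩| := Finset.abs_sum_le_sum_abs _ _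
        _ ≤ ∑ _k : ι₂, δ / 2 * c₁ := by
            refine Finset.sum_le_sum fun k _ => ?_
            exact hp₁ _ (Finset.mem_image.2 ⟨(s, j), Finset.mem_univ _, rfl⟩)
              (fun a => F ⟨a, p₂ k, fl s (h j).s⟩) (fun g => hF _)
        _ = c₂ * (δ / 2 * c₁) := by
            rw [Finset.sum_const, Finset.card_univ, nsmul_eq_mul]
    -- step C
    have hC : ∑ s : Bool × Bool, ∑ i : ι₁, ∑ k : ι₂, F ⟨p₁ i, p₂ k, fl s (h j).s⟩ =
        ∑ s : Bool × Bool, ∑ i : ι₁, ∑ k : ι₂, F ⟨p₁ i, p₂ k, s⟩ :=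
      Equiv.sum_comp (flPerm (h j).s) (fun s => ∑ i : ι₁, ∑ k : ι₂, F ⟨p₁ i, p₂ k, s⟩)
    rw [← hC, ← Finset.sum_sub_distrib]
    calc _ ≤ ∑ s : Bool × Bool, |(∑ i : ι₁, ∑ k : ι₂, F ⟨p₁ i * cj s (h j).α,
            p₂ k + p₁ i * cj s (h j).τ, fl s (h j).s⟩) -
          ∑ i : ι₁, ∑ k : ι₂, F ⟨p₁ i, p₂ k, fl s (h j).s⟩| :=
          Finset.abs_sum_le_sum_abs _ _
      _ ≤ ∑ _s : Bool × Bool, (c₁ * (δ / 2 * c₂) + c₂ * (δ / 2 * c₁)) := by
          refine Finset.sum_le_sum fun s _ => ?_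
          exact (abs_sub_le _ _ _).trans (add_le_add (hA s) (hB s))
      _ = δ * (4 * (c₁ * c₂)) := by
          rw [Finset.sum_const, Finset.card_univ, Fintype.card_prod, Fintype.card_bool,
            nsmul_eq_mul]
          push_cast
          ring

end Pool.Agent.H18FC
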