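import Pool.Agent.Helper18_FC.Foelner
import Pool.Agent.Helper7_UD.Defs

/-!
# The averaging theorem
-/

namespace Pool.Agent.H18FC

open Finset Pool.Agent.Helper7_UD

/-- pairs of complex numbers with real and imaginary parts in `F` -/
def planes (F : IntermediateField ℚ ℝ) : Subring (ℂ × ℂ) where
  carrier := {z | z.1.re ∈ F ∧ z.1.im ∈ F ∧ z.2.re ∈ F ∧ z.2.im ∈ F}
  mul_mem' := by
    rintro a b ⟨h1, h2, h3, h4⟩ ⟨k1, k2, k3, k4⟩
    refine ⟨?_, ?_, ?_, ?_⟩
    · rw [Prod.fst_mul, Complex.mul_re]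
      exact F.sub_mem (F.mul_mem h1 k1) (F.mul_mem h2 k2)
    · rw [Prod.fst_mul, Complex.mul_im]
      exact F.add_mem (F.mul_mem h1 k2) (F.mul_mem h2 k1)
    · rw [Prod.snd_mul, Complex.mul_re]
      exact F.sub_mem (F.mul_mem h3 k3) (F.mul_mem h4 k4)
    · rw [Prod.snd_mul, Complex.mul_im]
      exact F.add_mem (F.mul_mem h3 k4) (F.mul_mem h4 k3)
  one_mem' := ⟨by simpa using F.one_mem, by simpa using F.zero_mem,
    by simpa using F.one_mem, by simpa using F.zero_mem⟩
  add_mem' := by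
    rintro a b ⟨h1, h2, h3, h4⟩ ⟨k1, k2, k3, k4⟩
    exact ⟨by simpa using F.add_mem h1 k1, by simpa using F.add_mem h2 k2,
      by simpa using F.add_mem h3 k3, by simpa using F.add_mem h4 k4⟩
  zero_mem' := ⟨by simpa using F.zero_mem, by simpa using F.zero_mem,
    by simpa using F.zero_mem, by simpa using F.zero_mem⟩
  neg_mem' := by
    rintro a ⟨h1, h2, h3, h4⟩
    exact ⟨by simpa using F.neg_mem h1, by simpa using F.neg_mem h2,
      by simpa using F.neg_mem h3, by simpa using F.neg_mem h4⟩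

variable {F : IntermediateField ℚ ℝ}

theorem mem_planes {z : ℂ × ℂ} :
    z ∈ planes F ↔ z.1.re ∈ F ∧ z.1.im ∈ F ∧ z.2.re ∈ F ∧ z.2.im ∈ F := Iff.rfl

theorem planes_cj : ∀ z ∈ planes F, ∀ s, cj s z ∈ planes F := by
  rintro z ⟨h1, h2, h3, h4⟩ ⟨s, t⟩
  cases s <;> cases t <;> simp [cj, mem_planes, cc, h1, h2, h3, h4]

theorem planes_act {g : Mov} (hα : g.α ∈ planes F) (hτ : g.τ ∈ planes F) {z : ℂ × ℂ}
    (hz : z ∈ planes F) : g.act z ∈ planes F :=
  Subring.add_mem _ hτ (Subring.mul_mem _ hα (planes_cj z hz _))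

/-- the point of `F × F` -/
def pt (z : ℂ × ℂ) (hz : z ∈ planes F) : F × F := (⟨z.1.re, hz.1⟩, ⟨z.1.im, hz.2.1⟩)

theorem adj_of_un {z w : ℂ × ℂ} (hz : z ∈ planes F) (hw : w ∈ planes F) (h : Un (z - w)) :
    (unitDistanceGraph F).Adj (pt z hz) (pt w hw) := by
  change (z.1.re - w.1.re) ^ 2 + (z.1.im - w.1.im) ^ 2 = 1
  have h1 : (z - w).1 * (starRingEnd ℂ) (z - w).1 = 1 := by
    have := congrArg Prod.fst h
    simpa [cc] using this
  have h2 := congrArg Complex.re h1
  simp only [Prod.fst_sub, Complex.mul_re, Complex.sub_re, Complex.sub_im, Complex.conj_re,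
    Complex.conj_im, Complex.one_re] at h2
  linarith

/-- The averaging theorem. -/
theorem averaging {κ : Type} [Fintype κ] {V : Type} [Fintype V] [DecidableEq V]
    (x : V → ℂ × ℂ) (hx : ∀ v, x v ∈ planes F) (a : V → ℝ) (ha : ∀ v, 0 ≤ a v)
    (hA : 0 < ∑ v, a v) (S S' : κ → Finset V) (g : κ → Mov)
    (hgα : ∀ j, (g j).α ∈ planes F) (hgτ : ∀ j, (g j).τ ∈ planes F) (hgU : ∀ j, Un (g j).α)
    (hS : ∀ j, x '' (S' j : Set V) = (fun v => (g j).act (x v)) '' (S j : Set V))
    (c : κ → ℝ)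
    (hcert : ∀ I : Finset V, (∀ v ∈ I, ∀ w ∈ I, ¬ Un (x v - x w)) →
      ∑ v ∈ I, a v + ∑ j, c j * ((if S j ⊆ I then 1 else 0) - (if S' j ⊆ I then 1 else 0)) ≤ 1)
    (ε : ℝ) (hε : 0 < ε) :
    ∃ (W : Finset (F × F)) (m : F × F → ℝ), (∀ p, 0 ≤ m p) ∧ ∑ p ∈ W, m p = 1 ∧
      ∀ I ⊆ W, (∀ p ∈ I, ∀ q ∈ I, ¬ (unitDistanceGraph F).Adj p q) →
        (∑ v, a v) * ∑ p ∈ I, m p ≤ 1 + ε := by
  classical
  set B : ℝ := ∑ j, |c j| with hB
  have hB0 : 0 ≤ B := Finset.sum_nonneg fun j _ => abs_nonneg _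
  obtain ⟨ι, hι, p, hcard, hp, hinv⟩ := foelner (planes F) planes_cj g hgα hgτ hgU
    (ε / (B + 1)) (by positivity)
  set N : ℝ := (Fintype.card ι : ℝ) with hN
  have hN0 : 0 < N := by
    rw [hN]
    exact_mod_cast hcard
  set A : ℝ := ∑ v, a v with hAdef
  have hmem : ∀ i v, (p i).act (x v) ∈ planes F := fun i v =>
    planes_act (hp i).1 (hp i).2.1 (hx v)
  set E : ι → V → F × F := fun i v => pt ((p i).act (x v)) (hmem i v) with hE
  set W : Finset (F × F) := Finset.univ.image fun q : ι × V => E q.1 q.2 with hW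
  have hEW : ∀ i v, E i v ∈ W := fun i v => Finset.mem_image.2 ⟨(i, v), Finset.mem_univ _, rfl⟩
  set m : F × F → ℝ := fun q => (∑ i, ∑ v, a v * (if E i v = q then 1 else 0)) / (N * A) with hm
  have hsum : ∀ I : Finset (F × F), ∑ q ∈ I, m q =
      (∑ i, ∑ v, a v * (if E i v ∈ I then 1 else 0)) / (N * A) := by
    intro I
    rw [hm, ← Finset.sum_div]
    congr 1
    rw [Finset.sum_comm]
    refine Finset.sum_congr rfl fun i _ => ?_
    rw [Finset.sum_comm]
    refine Finset.sum_congr rfl fun v _ => ?_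
    rw [← Finset.mul_sum, Finset.sum_ite_eq]
  refine ⟨W, m, ?_, ?_, ?_⟩
  · intro q
    refine div_nonneg (Finset.sum_nonneg fun i _ => Finset.sum_nonneg fun v _ => ?_)
      (mul_nonneg hN0.le hA.le)
    exact mul_nonneg (ha v) (by split_ifs <;> norm_num)
  · rw [hsum]
    have e1 : ∑ i : ι, ∑ v, a v * (if E i v ∈ W then (1 : ℝ) else 0) = N * A := by
      simp only [hEW, if_true, mul_one]
      rw [Finset.sum_const, Finset.card_univ, nsmul_eq_mul]
    rw [e1]
    exact div_self (mul_pos hN0 hA).ne'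
  · intro I _ hI
    rw [hsum]
    -- the set of first coordinates
    set T : Set ℂ := {z | ∃ q ∈ I, z.re = ((q.1 : F) : ℝ) ∧ z.im = ((q.2 : F) : ℝ)} with hT
    have hTE : ∀ i v, ((p i).act (x v)).1 ∈ T ↔ E i v ∈ I := by
      intro i v
      constructor
      · rintro ⟨q, hq, h1, h2⟩
        have : E i v = q := by
          apply Prod.ext
          · exact Subtype.ext h1
          · exact Subtype.ext h2
        rw [this]
        exact hq
      · intro h
        exact ⟨_, h, rfl, rfl⟩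
    set Fj : κ → Mov → ℝ := fun j h => if ∀ v ∈ S j, (h.act (x v)).1 ∈ T then 1 else 0 with hFj
    have hFj1 : ∀ j h, |Fj j h| ≤ 1 := by
      intro j h
      rw [hFj]
      dsimp only
      split_ifs <;> norm_num
    set J : ι → Finset V := fun i => Finset.univ.filter fun v => E i v ∈ I with hJ
    have hJmem : ∀ i v, v ∈ J i ↔ E i v ∈ I := fun i v => by simp [hJ]
    have hind : ∀ i, ∀ v ∈ J i, ∀ w ∈ J i, ¬ Un (x v - x w) := by
      intro i v hv w hw h
      exact hI _ ((hJmem i v).1 hv) _ ((hJmem i w).1 hw)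
        (adj_of_un (hmem i v) (hmem i w) (un_act (hp i).2.2 h))
    have hcs : ∀ i, ∑ v, a v * (if E i v ∈ I then (1 : ℝ) else 0) +
        ∑ j, c j * (Fj j (p i) - Fj j ((p i).mul (g j))) ≤ 1 := by
      intro i
      have h1 := hcert (J i) (hind i)
      have e1 : ∑ v ∈ J i, a v = ∑ v, a v * (if E i v ∈ I then (1 : ℝ) else 0) := by
        rw [hJ, Finset.sum_filter]
        refine Finset.sum_congr rfl fun v _ => ?_
        split_ifs <;> simp
      have e2 : ∀ j, (if S j ⊆ J i then (1 : ℝ) else 0) = Fj j (p i) := by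
        intro j
        have : S j ⊆ J i ↔ ∀ v ∈ S j, ((p i).act (x v)).1 ∈ T := by
          constructor
          · intro h v hv
            exact (hTE i v).2 ((hJmem i v).1 (h hv))
          · intro h v hv
            exact (hJmem i v).2 ((hTE i v).1 (h v hv))
        rw [hFj]
        simp only [this]
      have e3 : ∀ j, (if S' j ⊆ J i then (1 : ℝ) else 0) = Fj j ((p i).mul (g j)) := by
        intro j
        have : S' j ⊆ J i ↔ ∀ v ∈ S j, (((p i).mul (g j)).act (x v)).1 ∈ T := by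
          have h2 : (∀ v ∈ S' j, ((p i).act (x v)).1 ∈ T) ↔
              ∀ v ∈ S j, ((p i).act ((g j).act (x v))).1 ∈ T := by
            have h3 : (∀ z ∈ x '' (S' j : Set V), ((p i).act z).1 ∈ T) ↔
                ∀ z ∈ (fun v => (g j).act (x v)) '' (S j : Set V), ((p i).act z).1 ∈ T := by
              rw [hS j]
            simpa only [Set.forall_mem_image, Finset.mem_coe] using h3
          constructor
          · intro h v hv
            rw [act_mul]
            exact h2.1 (fun w hw => (hTE i w).2 ((hJmem i w).1 (h hw))) v hv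
          · intro h v hv
            refine (hJmem i v).2 ((hTE i v).1 (h2.2 (fun w hw => ?_) v hv))
            rw [← act_mul]
            exact h w hw
        rw [hFj]
        simp only [this]
      rw [e1] at h1
      simp only [e2, e3] at h1
      exact h1
    have htot := Finset.sum_le_sum fun i (_ : i ∈ (Finset.univ : Finset ι)) => hcs i
    rw [Finset.sum_add_distrib, Finset.sum_const, Finset.card_univ, nsmul_eq_mul, mul_one,
      ← hN] at htot
    have hmove : -(ε * N) ≤ ∑ i, ∑ j, c j * (Fj j (p i) - Fj j ((p i).mul (g j))) := by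
      rw [Finset.sum_comm]
      have h1 : ∀ j, -(|c j| * (ε / (B + 1) * N)) ≤
          ∑ i, c j * (Fj j (p i) - Fj j ((p i).mul (g j))) := by
        intro j
        rw [← Finset.mul_sum, Finset.sum_sub_distrib]
        have h2 := hinv j (Fj j) (hFj1 j)
        have h3 : |c j * (∑ i, Fj j (p i) - ∑ i, Fj j ((p i).mul (g j)))| ≤
            |c j| * (ε / (B + 1) * N) := by
          rw [abs_mul, abs_sub_comm]
          exact mul_le_mul_of_nonneg_left h2 (abs_nonneg _)
        linarith [neg_abs_le (c j * (∑ i, Fj j (p i) - ∑ i, Fj j ((p i).mul (g j))))]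
      calc -(ε * N) ≤ -(B * (ε / (B + 1) * N)) := by
            have h4 : B * (ε / (B + 1)) ≤ ε := by
              rw [mul_div_assoc', div_le_iff₀ (by positivity)]
              nlinarith
            nlinarith
        _ = ∑ j, -(|c j| * (ε / (B + 1) * N)) := by
            rw [Finset.sum_neg_distrib, ← Finset.sum_mul]
        _ ≤ _ := Finset.sum_le_sum fun j _ => h1 j
    rw [mul_div_assoc', div_le_iff₀ (mul_pos hN0 hA)]
    have h5 : ∑ i, ∑ v, a v * (if E i v ∈ I then (1 : ℝ) else 0) ≤ (1 + ε) * N := by linarith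
    nlinarith

end Pool.Agent.H18FC
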