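import Pool.Agent.Helper18_FC.Avg

/-!
# The fractional chromatic number
-/

namespace Pool.Agent.H18FC

open Finset Pool.Agent.Helper7_UD

/-- The total weights of the fractional colourings of the graph `H`: finitely many independent
sets `I` with weights `w I ≥ 0`, such that every vertex lies in independent sets of total weight
at least `1`. -/
def fracWeights {V : Type*} (H : SimpleGraph V) : Set ℝ :=
  {t | ∃ (𝓘 : Finset (Set V)) (w : Set V → ℝ), (∀ I ∈ 𝓘, H.IsIndepSet I) ∧
    (∀ I ∈ 𝓘, 0 ≤ w I) ∧ (∀ v, 1 ≤ ∑ I ∈ 𝓘, I.indicator (fun _ => w I) v) ∧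
    t = ∑ I ∈ 𝓘, w I}

/-- The fractional chromatic number of a finite graph. -/
noncomputable def fracChrom {V : Type*} (H : SimpleGraph V) : ℝ := sInf (fracWeights H)

/-- The fractional chromatic numbers of the finite subgraphs of `G`. -/
def finiteValues {V : Type*} (G : SimpleGraph V) : Set ℝ :=
  {t | ∃ H : G.Subgraph, H.verts.Finite ∧ t = fracChrom H.coe}

theorem fracWeights_nonneg {V : Type*} {H : SimpleGraph V} {t : ℝ} (ht : t ∈ fracWeights H) :
    0 ≤ t := by
  obtain ⟨𝓘, w, _, h2, _, rfl⟩ := ht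
  exact Finset.sum_nonneg h2

theorem fracWeights_bddBelow {V : Type*} (H : SimpleGraph V) : BddBelow (fracWeights H) :=
  ⟨0, fun _ ht => fracWeights_nonneg ht⟩

/-- A proper colouring with `n` colours is a fractional colouring of weight `n`. -/
theorem fracWeights_of_colorable {V : Type*} {H : SimpleGraph V} {n : ℕ} (h : H.Colorable n) :
    ∃ t ∈ fracWeights H, t ≤ n := by
  classical
  obtain ⟨C⟩ := h
  set cl : Fin n → Set V := fun i => {v | C v = i} with hcl
  set 𝓘 : Finset (Set V) := Finset.univ.image cl with hI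
  refine ⟨∑ I ∈ 𝓘, (1 : ℝ), ⟨𝓘, fun _ => 1, ?_, fun _ _ => zero_le_one, ?_, rfl⟩, ?_⟩
  · intro I hI
    obtain ⟨i, _, rfl⟩ := Finset.mem_image.1 hI
    intro v hv w hw _ hadj
    have h1 : C v = i := hv
    have h2 : C w = i := hw
    exact C.valid hadj (by rw [h1, h2])
  · intro v
    have hmem : cl (C v) ∈ 𝓘 := Finset.mem_image.2 ⟨_, Finset.mem_univ _, rfl⟩
    have h1 : (cl (C v)).indicator (fun _ => (1 : ℝ)) v = 1 :=
      Set.indicator_of_mem (show v ∈ cl (C v) from rfl) _
    calc (1 : ℝ) = (cl (C v)).indicator (fun _ => (1 : ℝ)) v := h1.symm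
      _ ≤ ∑ I ∈ 𝓘, I.indicator (fun _ => (1 : ℝ)) v :=
        Finset.single_le_sum (f := fun I : Set V => I.indicator (fun _ => (1 : ℝ)) v)
          (fun I _ => Set.indicator_nonneg (fun _ _ => zero_le_one) _) hmem
  · rw [Finset.sum_const, nsmul_eq_mul, mul_one]
    have h1 : 𝓘.card ≤ n := by
      calc 𝓘.card ≤ (Finset.univ : Finset (Fin n)).card := Finset.card_image_le
        _ = n := by simp
    exact_mod_cast h1

/-- The lower bound from weights on the vertices of a finite induced subgraph. -/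
theorem le_of_weights {V : Type*} [DecidableEq V] {G : SimpleGraph V} (W : Finset V)
    (m : V → ℝ) (hm : ∀ p, 0 ≤ m p) (hm1 : ∑ p ∈ W, m p = 1) (A ε : ℝ) (hA : 0 < A)
    (hI : ∀ I ⊆ W, (∀ p ∈ I, ∀ q ∈ I, ¬ G.Adj p q) → A * ∑ p ∈ I, m p ≤ 1 + ε) (t : ℝ)
    (ht : t ∈ fracWeights ((⊤ : G.Subgraph).induce (W : Set V)).coe) : A ≤ (1 + ε) * t := by
  classical
  set H := (⊤ : G.Subgraph).induce (W : Set V) with hH
  obtain ⟨𝓘, w, h1, h2, h3, rfl⟩ := ht
  have hverts : H.verts = (W : Set V) := rfl
  -- the trace of an independent set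
  set tr : Set H.verts → Finset V := fun I => W.filter fun q => ∃ h : q ∈ H.verts, ⟨q, h⟩ ∈ I
    with htr
  have hb : ∀ I ∈ 𝓘, A * ∑ p ∈ tr I, m p ≤ 1 + ε := by
    intro I hI'
    apply hI (tr I) (Finset.filter_subset _ _)
    intro p hp q hq hadj
    obtain ⟨hpW, hp1, hp2⟩ := Finset.mem_filter.1 hp
    obtain ⟨hqW, hq1, hq2⟩ := Finset.mem_filter.1 hq
    have hne : (⟨p, hp1⟩ : H.verts) ≠ ⟨q, hq1⟩ := by
      intro h
      have := congrArg Subtype.val h
      exact hadj.ne this
    refine h1 I hI' hp2 hq2 hne ?_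
    rw [SimpleGraph.Subgraph.coe_adj]
    exact ⟨hpW, hqW, hadj⟩
  have hkey : (1 : ℝ) ≤ ∑ I ∈ 𝓘, w I * ∑ p ∈ tr I, m p := by
    have e1 : ∀ I : Set H.verts, w I * ∑ p ∈ tr I, m p =
        ∑ p ∈ W, m p * (if ∃ h : p ∈ H.verts, ⟨p, h⟩ ∈ I then w I else 0) := by
      intro I
      rw [htr]
      dsimp only
      rw [Finset.sum_filter, Finset.mul_sum]
      refine Finset.sum_congr rfl fun p _ => ?_
      split_ifs <;> ring
    simp only [e1]
    rw [Finset.sum_comm, ← hm1]
    refine Finset.sum_le_sum fun p hp => ?_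
    rw [← Finset.mul_sum]
    have hpH : p ∈ H.verts := hp
    have h4 := h3 ⟨p, hpH⟩
    have e2 : ∀ I : Set H.verts, I.indicator (fun _ => w I) (⟨p, hpH⟩ : H.verts) =
        (if ∃ h : p ∈ H.verts, ⟨p, h⟩ ∈ I then w I else 0) := by
      intro I
      by_cases h5 : (⟨p, hpH⟩ : H.verts) ∈ I
      · rw [Set.indicator_of_mem h5, if_pos ⟨hpH, h5⟩]
      · rw [Set.indicator_of_notMem h5, if_neg]
        rintro ⟨h6, h7⟩
        exact h5 h7
    simp only [e2] at h4
    nlinarith [hm p]
  calc A = A * 1 := (mul_one A).symm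
    _ ≤ A * ∑ I ∈ 𝓘, w I * ∑ p ∈ tr I, m p := mul_le_mul_of_nonneg_left hkey hA.le
    _ = ∑ I ∈ 𝓘, w I * (A * ∑ p ∈ tr I, m p) := by
        rw [Finset.mul_sum]
        refine Finset.sum_congr rfl fun I _ => ?_
        ring
    _ ≤ ∑ I ∈ 𝓘, w I * (1 + ε) :=
        Finset.sum_le_sum fun I hI' => mul_le_mul_of_nonneg_left (hb I hI') (h2 I hI')
    _ = (1 + ε) * ∑ I ∈ 𝓘, w I := by
        rw [← Finset.sum_mul, mul_comm]

/-- For a finite graph the infimum in the definition is attained. -/
theorem fracChrom_isLeast {V : Type*} [Finite V] (H : SimpleGraph V) :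
    IsLeast (fracWeights H) (fracChrom H) := by
  classical
  have : Fintype V := Fintype.ofFinite V
  -- the feasible set
  set K : Set (Set V → ℝ) := {w | (∀ I, 0 ≤ w I) ∧ (∀ I, ¬ H.IsIndepSet I → w I = 0) ∧
    ∀ v, 1 ≤ ∑ I : Set V, I.indicator (fun _ => w I) v} with hK
  have hsumcont : Continuous fun w : Set V → ℝ => ∑ I : Set V, w I :=
    continuous_finsetSum _ fun I _ => continuous_apply I
  have hclosed : IsClosed K := by
    have h1 : IsClosed {w : Set V → ℝ | ∀ I, 0 ≤ w I} := by
      simp only [Set.ofPred_forall]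
      exact isClosed_iInter fun I => isClosed_le continuous_const (continuous_apply I)
    have h2 : IsClosed {w : Set V → ℝ | ∀ I, ¬ H.IsIndepSet I → w I = 0} := by
      simp only [Set.ofPred_forall]
      exact isClosed_iInter fun I => isClosed_iInter fun _ =>
        isClosed_eq (continuous_apply I) continuous_const
    have h3 : IsClosed {w : Set V → ℝ | ∀ v, 1 ≤ ∑ I : Set V, I.indicator (fun _ => w I) v} := by
      simp only [Set.ofPred_forall]
      refine isClosed_iInter fun v => isClosed_le continuous_const ?_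
      refine continuous_finsetSum _ fun I _ => ?_
      by_cases hv : v ∈ I
      · simp only [Set.indicator_of_mem hv]
        exact continuous_apply I
      · simp only [Set.indicator_of_notMem hv]
        exact continuous_const
    exact (h1.inter (h2.inter h3))
  have hne : ∃ w ∈ K, True := by
    refine ⟨fun I => if H.IsIndepSet I then 1 else 0, ⟨?_, ?_, ?_⟩, trivial⟩
    · intro I
      dsimp only
      split_ifs <;> norm_num
    · intro I hI
      exact if_neg hI
    · intro v
      have hind : H.IsIndepSet ({v} : Set V) := by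
        intro a ha b hb hab
        rw [Set.mem_singleton_iff] at ha hb
        exact absurd (ha.trans hb.symm) hab
      have h1 : ({v} : Set V).indicator (fun _ => if H.IsIndepSet ({v} : Set V) then (1 : ℝ)
          else 0) v = 1 := by
        rw [Set.indicator_of_mem (Set.mem_singleton v), if_pos hind]
      calc (1 : ℝ) = _ := h1.symm
        _ ≤ _ := Finset.single_le_sum
          (f := fun I : Set V => I.indicator (fun _ => if H.IsIndepSet I then (1 : ℝ) else 0) v)
          (fun I _ => Set.indicator_nonneg (fun _ _ => by split_ifs <;> norm_num) _)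
          (Finset.mem_univ ({v} : Set V))
  obtain ⟨w0, hw0, _⟩ := hne
  set M : ℝ := ∑ I : Set V, w0 I with hM
  have hcomp : IsCompact (K ∩ {w | ∑ I : Set V, w I ≤ M}) := by
    have hbd : K ∩ {w | ∑ I : Set V, w I ≤ M} ⊆ Set.pi Set.univ fun _ : Set V => Set.Icc 0 M := by
      rintro w ⟨hw, hwM⟩ I _
      refine ⟨hw.1 I, ?_⟩
      calc w I ≤ ∑ J : Set V, w J :=
            Finset.single_le_sum (f := fun J : Set V => w J) (fun J _ => hw.1 J)
              (Finset.mem_univ I)
        _ ≤ M := hwM
    exact IsCompact.of_isClosed_subset (isCompact_univ_pi fun _ => isCompact_Icc)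
      (hclosed.inter (isClosed_le hsumcont continuous_const)) hbd
  obtain ⟨w1, ⟨hw1, hw1M⟩, hmin⟩ := hcomp.exists_isMinOn ⟨w0, hw0, le_refl M⟩
    hsumcont.continuousOn
  have hmin' : ∀ w ∈ K, ∑ I : Set V, w1 I ≤ ∑ I : Set V, w I := by
    intro w hw
    by_cases h : ∑ I : Set V, w I ≤ M
    · exact hmin ⟨hw, h⟩
    · push Not at h
      exact hw1M.trans h.le
  have hmem : ∀ w ∈ K, ∑ I : Set V, w I ∈ fracWeights H := by
    intro w hw
    refine ⟨Finset.univ.filter fun I => H.IsIndepSet I, w, ?_, fun I _ => hw.1 I, ?_, ?_⟩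
    · intro I hI
      exact (Finset.mem_filter.1 hI).2
    · intro v
      rw [Finset.sum_filter]
      refine (hw.2.2 v).trans (le_of_eq ?_)
      refine Finset.sum_congr rfl fun I _ => ?_
      split_ifs with h
      · rfl
      · rw [hw.2.1 I h]
        simp
    · rw [Finset.sum_filter]
      refine Finset.sum_congr rfl fun I _ => ?_
      split_ifs with h
      · rfl
      · exact hw.2.1 I h
  have hle : ∀ t ∈ fracWeights H, ∑ I : Set V, w1 I ≤ t := by
    rintro t ⟨𝓘, w, h1, h2, h3, rfl⟩
    set w' : Set V → ℝ := fun I => if I ∈ 𝓘 then w I else 0 with hw'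
    have hw'K : w' ∈ K := by
      refine ⟨?_, ?_, ?_⟩
      · intro I
        rw [hw']
        dsimp only
        split_ifs with h
        · exact h2 I h
        · exact le_rfl
      · intro I hI
        rw [hw']
        dsimp only
        rw [if_neg]
        exact fun h => hI (h1 I h)
      · intro v
        refine (h3 v).trans (le_of_eq ?_)
        rw [← Finset.sum_filter_add_sum_filter_not Finset.univ (fun I : Set V => I ∈ 𝓘)]
        have e1 : ∑ I ∈ Finset.univ.filter (fun I : Set V => ¬ I ∈ 𝓘),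
            I.indicator (fun _ => w' I) v = 0 := by
          refine Finset.sum_eq_zero fun I hI => ?_
          rw [hw']
          dsimp only
          rw [if_neg (Finset.mem_filter.1 hI).2]
          simp
        rw [e1, add_zero, Finset.filter_mem_eq_inter, Finset.univ_inter]
        refine Finset.sum_congr rfl fun I hI => ?_
        rw [hw']
        dsimp only
        rw [if_pos hI]
    have h4 := hmin' w' hw'K
    have e2 : ∑ I : Set V, w' I = ∑ I ∈ 𝓘, w I := by
      rw [hw', Finset.sum_ite, Finset.filter_mem_eq_inter, Finset.univ_inter]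
      simp
    rw [e2] at h4
    exact h4
  have hfin : fracChrom H = ∑ I : Set V, w1 I := by
    unfold fracChrom
    exact IsLeast.csInf_eq ⟨hmem w1 hw1, hle⟩
  rw [hfin]
  exact ⟨hmem w1 hw1, hle⟩

end Pool.Agent.H18FC
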