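import Pool.Agent.Helper18_FC.Coord
import Pool.Agent.Helper18_FC.Frac

/-!
# From a certificate to the lower bound
-/

namespace Pool.Agent.H18FC

open Finset Pool.Agent.Helper7_UD

/-- check of the remaining points -/
def ckPt (P : ℕ → Z4) (s : Bool × Bool) (s0 t0 : ℕ) (u0 v0 : Z4) : List ℕ → List ℕ → Bool
  | [], [] => true
  | a :: S, b :: T =>
    decide (((P b).sub (P t0)).mul u0 = v0.mul (((P a).sub (P s0)).cj s)) &&
      ckPt P s s0 t0 u0 v0 S T
  | _, _ => false

/-- check that there is a move which maps the list `S` to the list `T` -/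
def ckMv (P : ℕ → Z4) (s : Bool × Bool) : List ℕ → List ℕ → Bool
  | [_], [_] => true
  | s0 :: s1 :: S, t0 :: t1 :: T =>
    decide ((((P s1).sub (P s0)).cj s).nrm = ((P t1).sub (P t0)).nrm) &&
    (decide ((((P t1).sub (P t0)).nrm.1) * (((P t1).sub (P t0)).nrm.1) ≠
      33 * ((((P t1).sub (P t0)).nrm.2) * (((P t1).sub (P t0)).nrm.2))) &&
    ckPt P s s0 t0 (((P s1).sub (P s0)).cj s) ((P t1).sub (P t0)) S T)
  | _, _ => false

theorem ckPt_spec {P : ℕ → Z4} {s : Bool × Bool} {s0 t0 : ℕ} {u0 v0 : Z4} (g : Mov)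
    (hg : ∀ a b : ℕ, ((P b).sub (P t0)).mul u0 = v0.mul (((P a).sub (P s0)).cj s) →
      g.act (P a).pos = (P b).pos) :
    ∀ S T : List ℕ, ckPt P s s0 t0 u0 v0 S T = true →
      S.map (fun a => g.act (P a).pos) = T.map (fun b => (P b).pos)
  | [], [], _ => rfl
  | a :: S, b :: T, h => by
    rw [ckPt, Bool.and_eq_true, decide_eq_true_eq] at h
    rw [List.map_cons, List.map_cons, hg a b h.1, ckPt_spec g hg S T h.2]
  | [], _ :: _, h => by simp [ckPt] at h
  | _ :: _, [], h => by simp [ckPt] at h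

theorem cj_const (s : Bool × Bool) : cj s ((1 / 12, 1 / 12) : ℂ × ℂ) = (1 / 12, 1 / 12) := by
  have h3 : (starRingEnd ℂ) (1 / 12) = 1 / 12 := by
    rw [map_div₀, map_one, map_ofNat]
  rcases s with ⟨s, t⟩
  apply Prod.ext <;> cases s <;> cases t <;>
    simp only [cj, Bool.false_eq_true, if_true, if_false, Prod.fst_swap, Prod.snd_swap,
      cc_fst, cc_snd] <;> exact h3

theorem ckMv_spec {P : ℕ → Z4} {s : Bool × Bool} : ∀ {S T : List ℕ}, ckMv P s S T = true →
    ∃ g : Mov, g.α ∈ planes K ∧ g.τ ∈ planes K ∧ Un g.α ∧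
      S.map (fun a => g.act (P a).pos) = T.map (fun b => (P b).pos)
  | [], _, h => by simp [ckMv] at h
  | [a], [], h => by simp [ckMv] at h
  | [a], [b], _ => by
    refine ⟨⟨1, (P b).pos - (P a).pos, (false, false)⟩, Subring.one_mem _,
      Subring.sub_mem _ (pos_mem _) (pos_mem _), by simp [Un], ?_⟩
    simp [Mov.act, cj]
  | [a], b :: c :: T, h => by simp [ckMv] at h
  | _ :: _ :: _, [], h => by simp [ckMv] at h
  | _ :: _ :: _, [_], h => by simp [ckMv] at h
  | s0 :: s1 :: S, t0 :: t1 :: T, h => by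
    rw [ckMv, Bool.and_eq_true, Bool.and_eq_true, decide_eq_true_eq, decide_eq_true_eq] at h
    obtain ⟨h1, h2, h3⟩ := h
    set u0 := ((P s1).sub (P s0)).cj s with hu0
    set v0 := (P t1).sub (P t0) with hv0
    -- the norms of `u0` are not zero
    set n1 : ℝ := (v0.nrm.1 : ℝ) with hn1
    set n2 : ℝ := (v0.nrm.2 : ℝ) with hn2
    have hne : (n1 + n2 * (s3 * s11)) * (n1 - n2 * (s3 * s11)) ≠ 0 := by
      have e1 : (n1 + n2 * (s3 * s11)) * (n1 - n2 * (s3 * s11)) = n1 * n1 - 33 * (n2 * n2) := by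
        linear_combination (-(n2 * n2) * (s11 * s11)) * s3_sq - 3 * (n2 * n2) * s11_sq
      rw [e1]
      intro h4
      apply h2
      have h5 : n1 * n1 = 33 * (n2 * n2) := by linarith
      rw [hn1, hn2] at h5
      exact_mod_cast h5
    have hne1 := left_ne_zero_of_mul hne
    have hne2 := right_ne_zero_of_mul hne
    have hv := emb_nrm v0
    have hu : u0.emb * cc u0.emb = v0.emb * cc v0.emb := by
      rw [emb_nrm, h1, ← emb_nrm]
    -- the coordinates of `u0` do not vanish
    have hv1 : (v0.emb * cc v0.emb).1 ≠ 0 := by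
      rw [hv]
      exact Complex.ofReal_ne_zero.2 hne1
    have hv2 : (v0.emb * cc v0.emb).2 ≠ 0 := by
      rw [hv]
      exact Complex.ofReal_ne_zero.2 hne2
    have hu1 : u0.emb.1 ≠ 0 := by
      intro h4
      apply hv1
      rw [← hu, Prod.fst_mul, h4, zero_mul]
    have hu2 : u0.emb.2 ≠ 0 := by
      intro h4
      apply hv2
      rw [← hu, Prod.snd_mul, h4, zero_mul]
    set w : ℂ × ℂ := (u0.emb.1⁻¹, u0.emb.2⁻¹) with hw
    have hwu : u0.emb * w = 1 := by
      apply Prod.ext
      · rw [Prod.fst_mul, hw]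
        exact mul_inv_cancel₀ hu1
      · rw [Prod.snd_mul, hw]
        exact mul_inv_cancel₀ hu2
    have hwm : w ∈ planes K := by
      have hm := emb_mem u0
      have hinv : ∀ z : ℂ, z.re ∈ K → z.im ∈ K → z⁻¹.re ∈ K ∧ z⁻¹.im ∈ K := by
        intro z h4 h5
        have h6 : Complex.normSq z ∈ K := by
          rw [Complex.normSq_apply]
          exact K.add_mem (K.mul_mem h4 h4) (K.mul_mem h5 h5)
        refine ⟨?_, ?_⟩
        · rw [Complex.inv_re]; exact K.div_mem h4 h6
        · rw [Complex.inv_im]; exact K.div_mem (K.neg_mem h5) h6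
      exact ⟨(hinv _ hm.1 hm.2.1).1, (hinv _ hm.1 hm.2.1).2,
        (hinv _ hm.2.2.1 hm.2.2.2).1, (hinv _ hm.2.2.1 hm.2.2.2).2⟩
    set α := v0.emb * w with hα
    have hαm : α ∈ planes K := Subring.mul_mem _ (emb_mem _) hwm
    have hαu : α * u0.emb = v0.emb := by
      rw [hα, mul_assoc, mul_comm w, hwu, mul_one]
    have hUn : Un α := by
      unfold Un
      have h4 : (u0.emb * cc u0.emb) * (w * cc w) = 1 := by
        have h5 : cc u0.emb * cc w = 1 := by rw [← map_mul, hwu, map_one]
        calc (u0.emb * cc u0.emb) * (w * cc w) = (u0.emb * w) * (cc u0.emb * cc w) := by ring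
          _ = 1 := by rw [hwu, h5, one_mul]
      rw [hα, map_mul]
      calc v0.emb * w * (cc v0.emb * cc w) = (v0.emb * cc v0.emb) * (w * cc w) := by ring
        _ = 1 := by rw [← hu, h4]
    set g : Mov := ⟨α, (P t0).pos - α * cj s (P s0).pos, s⟩ with hg
    have hτm : g.τ ∈ planes K :=
      Subring.sub_mem _ (pos_mem _) (Subring.mul_mem _ hαm (planes_cj _ (pos_mem _) _))
    have hact : ∀ a b : ℕ, ((P b).sub (P t0)).mul u0 = v0.mul (((P a).sub (P s0)).cj s) →
        g.act (P a).pos = (P b).pos := by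
      intro a b hab
      have h4 := congrArg Z4.emb hab
      rw [emb_mul, emb_mul, emb_cj s ((P a).sub (P s0))] at h4
      have h5 : ((P b).sub (P t0)).emb = α * cj s ((P a).sub (P s0)).emb := by
        calc ((P b).sub (P t0)).emb = ((P b).sub (P t0)).emb * (u0.emb * w) := by
              rw [hwu, mul_one]
          _ = (((P b).sub (P t0)).emb * u0.emb) * w := by ring
          _ = (v0.emb * cj s ((P a).sub (P s0)).emb) * w := by rw [h4]
          _ = α * cj s ((P a).sub (P s0)).emb := by rw [hα]; ring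
      have h6 : g.act (P a).pos = (P t0).pos + α * cj s ((P a).pos - (P s0).pos) := by
        rw [cj_sub, hg]
        unfold Mov.act
        ring
      have h7 := cj_const s
      have h8 := pos_sub (P b) (P t0)
      rw [h6, pos_sub, cj_mul, h7]
      rw [h5] at h8
      have h9 : (P b).pos = (P t0).pos + ((P b).pos - (P t0).pos) := by ring
      rw [h9, h8]
      ring
    refine ⟨g, hαm, hτm, hUn, ?_⟩
    have ha0 : g.act (P s0).pos = (P t0).pos := by
      rw [hg]
      unfold Mov.act
      ring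
    have ha1 : g.act (P s1).pos = (P t1).pos := by
      apply hact
      have h4 : ((P t1).sub (P t0)).mul u0 = v0.mul u0 := rfl
      exact h4
    rw [List.map_cons, List.map_cons, List.map_cons, List.map_cons, ha0, ha1,
      ckPt_spec g hact S T h3]

/-- A class of congruent sets: a list `S`, and lists `T` with a flag and a coefficient. -/
abbrev Cls : Type := List ℕ × List (List ℕ × (Bool × Bool) × ℤ)

/-- the list `l` is contained in `I` -/
def sub? (l : List ℕ) (I : Finset ℕ) : Prop := ∀ v ∈ l, v ∈ I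

instance (l : List ℕ) (I : Finset ℕ) : Decidable (sub? l I) := by
  unfold sub?
  infer_instance

/-- the value of the certificate at the set `I` -/
def val (cs : List Cls) (I : Finset ℕ) : ℤ :=
  (cs.map fun cl => (cl.2.map fun m => if sub? m.1 I then m.2.2 else 0).sum).sum

/-- the geometric check of a class -/
def ckCls (P : ℕ → Z4) (n : ℕ) (cl : Cls) : Bool :=
  cl.1.all (fun v => decide (v < n)) &&
    cl.2.all fun m => m.1.all (fun v => decide (v < n)) && ckMv P m.2.1 cl.1 m.1

/-- the sum of the coefficients -/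
def csum (cl : Cls) : ℤ := (cl.2.map fun m => m.2.2).sum

theorem sum_flat (f : List ℕ → (List ℕ × (Bool × Bool) × ℤ) → ℝ) (cs : List Cls) :
    ((cs.flatMap fun cl => cl.2.map fun m => (cl.1, m)).map fun e => f e.1 e.2).sum =
      (cs.map fun cl => (cl.2.map (f cl.1)).sum).sum := by
  induction cs with
  | nil => rfl
  | cons cl cs ih =>
    rw [List.flatMap_cons, List.map_append, List.sum_append, ih, List.map_cons, List.sum_cons]
    congr 2
    rw [List.map_map]
    rfl

/-- the real form of one term -/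
noncomputable def Fv (I : Finset ℕ) (S : List ℕ) (m : List ℕ × (Bool × Bool) × ℤ) : ℝ :=
  (m.2.2 : ℝ) * ((if sub? m.1 I then 1 else 0) - (if sub? S I then 1 else 0))

theorem sum_cls (I : Finset ℕ) (cl : Cls) : (cl.2.map (Fv I cl.1)).sum =
    (((cl.2.map fun m => if sub? m.1 I then m.2.2 else 0).sum : ℤ) : ℝ) -
      (csum cl : ℝ) * (if sub? cl.1 I then 1 else 0) := by
  rcases cl with ⟨S, ms'⟩
  unfold csum
  dsimp only
  induction ms' with
  | nil => simp
  | cons m ms' ih =>
    rw [List.map_cons, List.sum_cons, ih, List.map_cons, List.sum_cons, List.map_cons,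
      List.sum_cons]
    push_cast
    unfold Fv
    split_ifs <;> ring

theorem sum_classes (I : Finset ℕ) (cs : List Cls) (hs : ∀ cl ∈ cs, csum cl = 0) :
    (cs.map fun cl => (cl.2.map (Fv I cl.1)).sum).sum =
      (((cs.map fun cl => (cl.2.map fun m => if sub? m.1 I then m.2.2 else 0).sum).sum
        : ℤ) : ℝ) := by
  induction cs with
  | nil => simp
  | cons cl cs ih =>
    rw [List.map_cons, List.sum_cons, List.map_cons, List.sum_cons, sum_cls,
      hs cl List.mem_cons_self, ih (fun c hc' => hs c (List.mem_cons_of_mem _ hc'))]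
    push_cast
    ring

/-- the conclusion of the averaging theorem, with total weight `4` -/
def Avg4 : Prop := ∀ ε : ℝ, 0 < ε → ∃ (W : Finset (K × K)) (m : K × K → ℝ), (∀ p, 0 ≤ m p) ∧
  ∑ p ∈ W, m p = 1 ∧ ∀ I ⊆ W, (∀ p ∈ I, ∀ q ∈ I, ¬ (unitDistanceGraph K).Adj p q) →
    4 * ∑ p ∈ I, m p ≤ 1 + ε

theorem cert (n : ℕ) (P : ℕ → Z4) (adj : ℕ → ℕ → Bool)
    (hadj : ∀ v < n, ∀ w < n, adj v w = true → ((P v).sub (P w)).nrm = (144, 0)) (D : ℤ)
    (hD : 0 < D) (v0 : ℕ) (hv0 : v0 < n) (ms : List (List ℕ × (Bool × Bool) × ℤ))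
    (cs : List Cls) (h0 : ckCls P n ([v0], ms) = true) (h0s : csum ([v0], ms) = 4 * D)
    (hc : ∀ cl ∈ cs, ckCls P n cl = true) (hs : ∀ cl ∈ cs, csum cl = 0)
    (hineq : ∀ I : Finset ℕ, I ⊆ Finset.range n → (∀ v ∈ I, ∀ w ∈ I, adj v w = false) →
      val (([v0], ms) :: cs) I ≤ D) : Avg4 := by
  classical
  intro ε hε
  set all : List Cls := ([v0], ms) :: cs with hall
  set L : List (List ℕ × (List ℕ × (Bool × Bool) × ℤ)) :=
    all.flatMap fun cl => cl.2.map fun m => (cl.1, m) with hL
  have hDR : (0 : ℝ) < D := by exact_mod_cast hD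
  -- every entry of `L` passes the check
  have hLck' : ∀ e ∈ L, (∀ v ∈ e.1, v < n) ∧ (∀ v ∈ e.2.1, v < n) ∧
      ckMv P e.2.2.1 e.1 e.2.1 = true := by
    intro e he
    rw [hL, List.mem_flatMap] at he
    obtain ⟨cl, hcl, he⟩ := he
    obtain ⟨m, hm, rfl⟩ := List.mem_map.1 he
    have hck : ckCls P n cl = true := by
      rcases List.mem_cons.1 hcl with h | h
      · rw [h]
        exact h0
      · exact hc cl h
    rw [ckCls, Bool.and_eq_true, List.all_eq_true, List.all_eq_true] at hck
    obtain ⟨h1, h2⟩ := hck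
    have h3 := h2 m hm
    rw [Bool.and_eq_true, List.all_eq_true] at h3
    refine ⟨fun v hv => ?_, fun v hv => ?_, h3.2⟩
    · simpa using h1 v hv
    · simpa using h3.1 v hv
  obtain ⟨ent, hent⟩ : ∃ ent : Fin L.length → (List ℕ × (List ℕ × (Bool × Bool) × ℤ)),
      ent = fun j : Fin L.length => L[(j : ℕ)] := ⟨_, rfl⟩
  have hLck : ∀ j, (∀ v ∈ (ent j).1, v < n) ∧ (∀ v ∈ (ent j).2.1, v < n) ∧
      ckMv P (ent j).2.2.1 (ent j).1 (ent j).2.1 = true := by
    intro j
    rw [hent]
    exact hLck' _ (List.getElem_mem j.2)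
  have hg := fun j : Fin L.length => ckMv_spec (hLck j).2.2
  choose g hgα hgτ hgU hgmap using hg
  -- the sets
  set fs : List ℕ → Finset (Fin n) := fun l => Finset.univ.filter fun v : Fin n => (v : ℕ) ∈ l
    with hfs
  have hmemfs : ∀ l (v : Fin n), v ∈ fs l ↔ (v : ℕ) ∈ l := fun l v => by simp [hfs]
  set x : Fin n → ℂ × ℂ := fun v => (P v).pos with hx
  have h9 : ∀ v : Fin n, ((v : ℕ) = v0) ↔ v = ⟨v0, hv0⟩ := by
    intro v
    rw [Fin.ext_iff]
  have hsum4 : ∑ v : Fin n, (if (v : ℕ) = v0 then (4 : ℝ) else 0) = 4 := by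
    simp only [h9]
    rw [Finset.sum_ite_eq' Finset.univ (⟨v0, hv0⟩ : Fin n) (fun _ => (4 : ℝ)),
      if_pos (Finset.mem_univ _)]
  have key := averaging (F := K) (κ := Fin L.length) (V := Fin n) x (fun v => pos_mem _)
    (fun v => if (v : ℕ) = v0 then 4 else 0) (fun v => by split_ifs <;> norm_num)
    (by rw [hsum4]; norm_num)
    (fun j => fs (ent j).1) (fun j => fs (ent j).2.1) g hgα hgτ hgU
    (by
      intro j
      ext z
      simp only [Set.mem_image, Finset.mem_coe, hmemfs]
      have hck := hLck j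
      have hm := hgmap j
      constructor
      · rintro ⟨v, hv, rfl⟩
        have h1 : (P v).pos ∈ ((ent j).2.1).map fun b => (P b).pos := List.mem_map.2 ⟨v, hv, rfl⟩
        rw [← hm] at h1
        obtain ⟨a, ha, hav⟩ := List.mem_map.1 h1
        exact ⟨⟨a, hck.1 a ha⟩, ha, hav⟩
      · rintro ⟨v, hv, rfl⟩
        have h1 : (g j).act (P v).pos ∈ ((ent j).1).map fun a => (g j).act (P a).pos :=
          List.mem_map.2 ⟨v, hv, rfl⟩
        rw [hm] at h1
        obtain ⟨b, hb, hbv⟩ := List.mem_map.1 h1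
        exact ⟨⟨b, hck.2.1 b hb⟩, hb, hbv⟩)
    (fun j => -(((ent j).2.2.2 : ℤ) : ℝ) / D)
    (by
      intro I hI
      -- the set of numbers
      set I' : Finset ℕ := I.image fun v : Fin n => (v : ℕ) with hI'
      have hmemI : ∀ v : Fin n, (v : ℕ) ∈ I' ↔ v ∈ I := by
        intro v
        rw [hI', Finset.mem_image]
        constructor
        · rintro ⟨w, hw, hwv⟩
          have : w = v := Fin.ext hwv
          rw [← this]
          exact hw
        · intro hv
          exact ⟨v, hv, rfl⟩
      have hsubI : I' ⊆ Finset.range n := by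
        intro a ha
        obtain ⟨v, _, rfl⟩ := Finset.mem_image.1 ha
        exact Finset.mem_range.2 v.2
      have hind : ∀ v ∈ I', ∀ w ∈ I', adj v w = false := by
        intro a ha b hb
        obtain ⟨v, hv, rfl⟩ := Finset.mem_image.1 ha
        obtain ⟨w, hw, rfl⟩ := Finset.mem_image.1 hb
        by_contra h
        rw [Bool.not_eq_false] at h
        exact hI v hv w hw (un_pos_sub (hadj _ v.2 _ w.2 h))
      have hval := hineq I' hsubI hind
      have hsubset : ∀ l : List ℕ, (∀ v ∈ l, v < n) → (fs l ⊆ I ↔ sub? l I') := by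
        intro l hl
        constructor
        · intro h v hv
          exact (hmemI ⟨v, hl v hv⟩).2 (h ((hmemfs l _).2 hv))
        · intro h v hv
          exact (hmemI v).1 (h v ((hmemfs l v).1 hv))
      have hite : ∀ l : List ℕ, (∀ v ∈ l, v < n) →
          (if fs l ⊆ I then (1 : ℝ) else 0) = if sub? l I' then 1 else 0 := by
        intro l hl
        by_cases h : fs l ⊆ I
        · rw [if_pos h, if_pos ((hsubset l hl).1 h)]
        · rw [if_neg h, if_neg (fun h' => h ((hsubset l hl).2 h'))]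
      have e1 : ∑ j : Fin L.length, -(((ent j).2.2.2 : ℤ) : ℝ) / D *
          ((if fs (ent j).1 ⊆ I then 1 else 0) - (if fs (ent j).2.1 ⊆ I then 1 else 0)) =
          (1 / D) * ∑ j : Fin L.length, Fv I' (ent j).1 (ent j).2 := by
        rw [Finset.mul_sum]
        refine Finset.sum_congr rfl fun j _ => ?_
        rw [hite _ (hLck j).1, hite _ (hLck j).2.1]
        unfold Fv
        ring
      have e2 : ∑ j : Fin L.length, Fv I' (ent j).1 (ent j).2 =
          (all.map fun cl => (cl.2.map (Fv I' cl.1)).sum).sum := by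
        rw [← sum_flat (Fv I') all, hent]
        exact Fin.sum_univ_fun_getElem L (fun e => Fv I' e.1 e.2)
      have e4 : (all.map fun cl => (cl.2.map (Fv I' cl.1)).sum).sum =
          (val all I' : ℝ) - 4 * D * (if v0 ∈ I' then 1 else 0) := by
        have h5 : (if sub? [v0] I' then (1 : ℝ) else 0) = if v0 ∈ I' then 1 else 0 := by
          simp [sub?]
        rw [hall, List.map_cons, List.sum_cons, sum_cls, h0s, sum_classes I' cs hs]
        unfold val
        rw [List.map_cons, List.sum_cons, h5]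
        push_cast
        ring
      have e5 : ∑ v ∈ I, (if (v : ℕ) = v0 then (4 : ℝ) else 0) =
          4 * (if v0 ∈ I' then 1 else 0) := by
        by_cases h7 : v0 ∈ I'
        · rw [if_pos h7]
          have h8 : (⟨v0, hv0⟩ : Fin n) ∈ I := (hmemI ⟨v0, hv0⟩).1 h7
          simp only [h9]
          rw [Finset.sum_ite_eq' I (⟨v0, hv0⟩ : Fin n) (fun _ => (4 : ℝ)), if_pos h8]
          ring
        · rw [if_neg h7, mul_zero]
          refine Finset.sum_eq_zero fun v hv => ?_
          rw [if_neg]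
          intro h8
          apply h7
          rw [← h8]
          exact (hmemI v).2 hv
      rw [e5, e1, e2, e4]
      have hvR : (val all I' : ℝ) ≤ D := by exact_mod_cast hval
      have h10 : 4 * (if v0 ∈ I' then (1 : ℝ) else 0) +
          1 / D * ((val all I' : ℝ) - 4 * D * (if v0 ∈ I' then 1 else 0)) =
          (val all I' : ℝ) / D := by
        field_simp
        ring
      rw [h10, div_le_one hDR]
      exact hvR)
    ε hε
  rw [hsum4] at key
  exact key

end Pool.Agent.H18FC
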