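import Pool.Agent.Helper18_FC.Avg

/-!
# Integer coordinates

Points `(p + q √33 + (r √3 + t √11) i) / 12`.
-/

namespace Pool.Agent.H18FC

open Finset Pool.Agent.Helper7_UD

/-- integer coordinates with respect to `1, √33, √-3, √-11` -/
structure Z4 where
  p : ℤ
  q : ℤ
  r : ℤ
  t : ℤ
deriving DecidableEq

/-- product -/
def Z4.mul (u v : Z4) : Z4 :=
  ⟨u.p * v.p + 33 * (u.q * v.q) - 3 * (u.r * v.r) - 11 * (u.t * v.t),
   u.p * v.q + u.q * v.p - (u.r * v.t + u.t * v.r),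
   u.p * v.r + u.r * v.p + 11 * (u.q * v.t + u.t * v.q),
   u.p * v.t + u.t * v.p + 3 * (u.q * v.r + u.r * v.q)⟩

/-- difference -/
def Z4.sub (u v : Z4) : Z4 := ⟨u.p - v.p, u.q - v.q, u.r - v.r, u.t - v.t⟩

/-- conjugation and exchange -/
def Z4.cj (s : Bool × Bool) (u : Z4) : Z4 :=
  let w : Z4 := if s.1 then ⟨u.p, u.q, -u.r, -u.t⟩ else u
  if s.2 then ⟨w.p, -w.q, w.r, -w.t⟩ else w

/-- the norm is `n₁ + n₂ √33` -/
def Z4.nrm (u : Z4) : ℤ × ℤ :=
  (u.p * u.p + 33 * (u.q * u.q) + 3 * (u.r * u.r) + 11 * (u.t * u.t),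
   2 * (u.p * u.q + u.r * u.t))

/-- square root of three -/
noncomputable def s3 : ℝ := Real.sqrt 3
/-- square root of eleven -/
noncomputable def s11 : ℝ := Real.sqrt 11

theorem s3_sq : s3 * s3 = 3 := Real.mul_self_sqrt (by norm_num)
theorem s11_sq : s11 * s11 = 11 := Real.mul_self_sqrt (by norm_num)
theorem s3_mem : s3 ∈ K := IntermediateField.subset_adjoin _ _ (by simp [s3])
theorem s11_mem : s11 ∈ K := IntermediateField.subset_adjoin _ _ (by simp [s11])

/-- the two embeddings -/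
noncomputable def Z4.emb (u : Z4) : ℂ × ℂ :=
  (⟨u.p + u.q * (s3 * s11), u.r * s3 + u.t * s11⟩, ⟨u.p - u.q * (s3 * s11), u.r * s3 - u.t * s11⟩)

theorem emb_sub (u v : Z4) : (u.sub v).emb = u.emb - v.emb := by
  unfold Z4.emb Z4.sub
  apply Prod.ext <;> apply Complex.ext <;> simp <;> ring

theorem emb_mul (u v : Z4) : (u.mul v).emb = u.emb * v.emb := by
  have h3 := s3_sq
  have h11 := s11_sq
  unfold Z4.emb Z4.mul
  apply Prod.ext <;> apply Complex.ext
  · simp only [Prod.fst_mul, Complex.mul_re]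
    push_cast
    linear_combination (- (u.q * v.q : ℝ) * s11 * s11 + (u.r * v.r : ℝ)) * h3 +
      (- 3 * (u.q * v.q : ℝ) + (u.t * v.t : ℝ)) * h11
  · simp only [Prod.fst_mul, Complex.mul_im]
    push_cast
    linear_combination (- (u.q * v.r + u.r * v.q : ℝ) * s11) * h3 +
      (- (u.q * v.t + u.t * v.q : ℝ) * s3) * h11
  · simp only [Prod.snd_mul, Complex.mul_re]
    push_cast
    linear_combination (- (u.q * v.q : ℝ) * s11 * s11 + (u.r * v.r : ℝ)) * h3 +
      (- 3 * (u.q * v.q : ℝ) + (u.t * v.t : ℝ)) * h11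
  · simp only [Prod.snd_mul, Complex.mul_im]
    push_cast
    linear_combination ((u.q * v.r + u.r * v.q : ℝ) * s11) * h3 +
      (- (u.q * v.t + u.t * v.q : ℝ) * s3) * h11

theorem emb_cj (s : Bool × Bool) (u : Z4) : (u.cj s).emb = cj s u.emb := by
  rcases s with ⟨s, t⟩
  cases s <;> cases t <;> unfold Z4.emb Z4.cj cj <;> apply Prod.ext <;> apply Complex.ext <;>
    simp [cc] <;> ring

theorem emb_mem (u : Z4) : u.emb ∈ planes K := by
  have hz : ∀ n : ℤ, (n : ℝ) ∈ K := fun n => K.intCast_mem n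
  have h3 := s3_mem
  have h11 := s11_mem
  refine ⟨?_, ?_, ?_, ?_⟩
  · exact K.add_mem (hz _) (K.mul_mem (hz _) (K.mul_mem h3 h11))
  · exact K.add_mem (K.mul_mem (hz _) h3) (K.mul_mem (hz _) h11)
  · exact K.sub_mem (hz _) (K.mul_mem (hz _) (K.mul_mem h3 h11))
  · exact K.sub_mem (K.mul_mem (hz _) h3) (K.mul_mem (hz _) h11)

theorem cc_fst (z : ℂ × ℂ) : (cc z).1 = (starRingEnd ℂ) z.1 := rfl
theorem cc_snd (z : ℂ × ℂ) : (cc z).2 = (starRingEnd ℂ) z.2 := rfl

theorem emb_nrm (u : Z4) : u.emb * cc u.emb =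
    ((((u.nrm.1 : ℝ) + u.nrm.2 * (s3 * s11) : ℝ) : ℂ),
      (((u.nrm.1 : ℝ) - u.nrm.2 * (s3 * s11) : ℝ) : ℂ)) := by
  have h3 := s3_sq
  have h11 := s11_sq
  unfold Z4.emb Z4.nrm
  apply Prod.ext <;> apply Complex.ext
  · simp only [Prod.fst_mul, cc_fst, Complex.mul_re,
      Complex.conj_re, Complex.conj_im, Complex.ofReal_re]
    push_cast
    linear_combination ((u.q * u.q : ℝ) * s11 * s11 + (u.r * u.r : ℝ)) * h3 +
      (3 * (u.q * u.q : ℝ) + (u.t * u.t : ℝ)) * h11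
  · simp only [Prod.fst_mul, cc_fst, Complex.mul_im,
      Complex.conj_re, Complex.conj_im, Complex.ofReal_im]
    ring
  · simp only [Prod.snd_mul, cc_snd, Complex.mul_re,
      Complex.conj_re, Complex.conj_im, Complex.ofReal_re]
    push_cast
    linear_combination ((u.q * u.q : ℝ) * s11 * s11 + (u.r * u.r : ℝ)) * h3 +
      (3 * (u.q * u.q : ℝ) + (u.t * u.t : ℝ)) * h11
  · simp only [Prod.snd_mul, cc_snd, Complex.mul_im,
      Complex.conj_re, Complex.conj_im, Complex.ofReal_im]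
    ring

/-- the point with integer coordinates `12 x` -/
noncomputable def Z4.pos (u : Z4) : ℂ × ℂ := (1 / 12, 1 / 12) * u.emb

theorem pos_mem (u : Z4) : u.pos ∈ planes K := by
  refine Subring.mul_mem _ ?_ (emb_mem u)
  have h1 : (1 / 12 : ℝ) ∈ K := by
    have : ((1 / 12 : ℚ) : ℝ) ∈ K := K.algebraMap_mem (1 / 12 : ℚ)
    simpa using this
  refine ⟨?_, ?_, ?_, ?_⟩
  · simpa using h1
  · simp
  · simpa using h1
  · simp

theorem pos_sub (u v : Z4) : u.pos - v.pos = (1 / 12, 1 / 12) * (u.sub v).emb := by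
  rw [emb_sub]
  unfold Z4.pos
  ring

theorem un_pos_sub {u v : Z4} (h : (u.sub v).nrm = (144, 0)) : Un (u.pos - v.pos) := by
  unfold Un
  rw [pos_sub, map_mul]
  have h1 := emb_nrm (u.sub v)
  rw [h] at h1
  have h2 : ((1 / 12, 1 / 12) : ℂ × ℂ) * (u.sub v).emb *
      (cc (1 / 12, 1 / 12) * cc (u.sub v).emb) =
      ((1 / 12, 1 / 12) * cc (1 / 12, 1 / 12)) * ((u.sub v).emb * cc (u.sub v).emb) := by ring
  rw [h2, h1]
  have h3 : (starRingEnd ℂ) (1 / 12) = 1 / 12 := by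
    rw [map_div₀, map_one, map_ofNat]
  apply Prod.ext
  · simp only [Prod.fst_mul, cc_fst, h3, Prod.fst_one]
    norm_num
  · simp only [Prod.snd_mul, cc_snd, h3, Prod.snd_one]
    norm_num

end Pool.Agent.H18FC
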