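import Pool.Agent.Helper18_FC.Fast

/-!
# Decoding of classes
-/

namespace Pool.Agent.H18FC

open Finset

/-- a field of six bits -/
def fld (x i : ℕ) : ℕ := Nat.mod (Nat.shiftRight x i) 64

/-- `k` fields from position `i` -/
def lst (x : ℕ) : ℕ → ℕ → List ℕ
  | 0, _ => []
  | k + 1, i => fld x i :: lst x k (Nat.add i 6)

/-- the offset of the coefficients -/
def cOff : ℕ := 549755813888

/-- a member: `k` vertices, the flag, the coefficient with offset `2 ^ 39` -/
def decMem (k x : ℕ) : List ℕ × (Bool × Bool) × ℤ :=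
  (lst x k 0, (false, Nat.testBit x (6 * k)),
    Int.subNatNat (Nat.shiftRight x (Nat.add (Nat.mul 6 k) 1)) cOff)

/-- the members -/
def decMs (k W : ℕ) : ℕ → ℕ → List (List ℕ × (Bool × Bool) × ℤ)
  | 0, _ => []
  | f + 1, x => decMem k (Nat.mod x (Nat.shiftLeft 1 W)) :: decMs k W f (Nat.shiftRight x W)

/-- a class: `k` in three bits, the number of members in 13 bits, `S`, the members -/
def decCls (x : ℕ) : Cls :=
  (lst x (Nat.mod x 8) 16,
    decMs (Nat.mod x 8) (Nat.add (Nat.mul 6 (Nat.mod x 8)) 41) (Nat.mod (Nat.shiftRight x 3) 8192)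
      (Nat.shiftRight x (Nat.add (Nat.mul 6 (Nat.mod x 8)) 16)))

/-! ## The sum of the coefficients -/

/-- the sum of the raw coefficients -/
def rawSum (k W : ℕ) : ℕ → ℕ → ℕ → ℕ
  | 0, _, acc => acc
  | f + 1, x, acc => rawSum k W f (Nat.shiftRight x W)
      (Nat.add acc (Nat.shiftRight (Nat.mod x (Nat.shiftLeft 1 W)) (Nat.add (Nat.mul 6 k) 1)))

theorem rawSum_eq (k W : ℕ) : ∀ (f x acc : ℕ), ((rawSum k W f x acc : ℕ) : ℤ) =
    acc + ((decMs k W f x).map fun m => m.2.2).sum + f * (cOff : ℤ)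
  | 0, x, acc => by simp [rawSum, decMs]
  | f + 1, x, acc => by
    rw [rawSum, rawSum_eq k W f, decMs, List.map_cons, List.sum_cons]
    have h1 : (decMem k (Nat.mod x (Nat.shiftLeft 1 W))).2.2 =
        ((Nat.shiftRight (Nat.mod x (Nat.shiftLeft 1 W)) (Nat.add (Nat.mul 6 k) 1) : ℕ) : ℤ) -
          (cOff : ℤ) := Int.subNatNat_eq_coe
    rw [h1]
    push_cast
    have h2 : ∀ a b : ℕ, ((Nat.add a b : ℕ) : ℤ) = a + b := fun a b => Nat.cast_add a b
    rw [h2]
    ring

/-- the sum of the coefficients is `a` -/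
def ckSum (a x : ℕ) : Bool :=
  Nat.beq (rawSum (Nat.mod x 8) (Nat.add (Nat.mul 6 (Nat.mod x 8)) 41)
    (Nat.mod (Nat.shiftRight x 3) 8192)
    (Nat.shiftRight x (Nat.add (Nat.mul 6 (Nat.mod x 8)) 16)) 0)
    (Nat.add a (Nat.mul (Nat.mod (Nat.shiftRight x 3) 8192) cOff))

theorem ckSum_spec {a x : ℕ} (h : ckSum a x = true) : csum (decCls x) = a := by
  have h1 := congrArg (fun n : ℕ => (n : ℤ)) (Nat.eq_of_beq_eq_true h)
  simp only [rawSum_eq] at h1
  have h2 : ∀ a b : ℕ, ((Nat.add a b : ℕ) : ℤ) = a + b := fun a b => Nat.cast_add a b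
  have h3 : ∀ a b : ℕ, ((Nat.mul a b : ℕ) : ℤ) = a * b := fun a b => Nat.cast_mul a b
  rw [h2, h3] at h1
  unfold csum decCls
  simp only at h1 ⊢
  push_cast at h1
  linarith

/-! ## Lists of classes -/

/-- the geometric check of a list -/
def ckAll (tab tab' n : ℕ) : List ℕ → Bool
  | [] => true
  | x :: l => and (ckN tab tab' n (decCls x)) (ckAll tab tab' n l)

/-- the check of the sums -/
def ckSums : List ℕ → Bool
  | [] => true
  | x :: l => and (ckSum 0 x) (ckSums l)

theorem ckAll_spec {P : ℕ → Z4} {n : ℕ} {nl : List (ℤ × ℤ)} {tab tab' : ℕ}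
    (h0 : TabOK P n nl false tab) (h1 : TabOK P n nl true tab')
    (hP : ∀ i < n, ∀ j < n, i ≠ j → ((P i).sub (P j)).nrm ≠ (0, 0)) : ∀ {l : List ℕ},
    ckAll tab tab' n l = true → ∀ cl ∈ l.map decCls, GeoOK P n cl
  | [], _, cl, hcl => by simp at hcl
  | x :: l, h, cl, hcl => by
    rw [ckAll, Bool.and_eq_true] at h
    rw [List.map_cons, List.mem_cons] at hcl
    rcases hcl with rfl | hcl
    · exact ckN_spec h0 h1 hP h.1
    · exact ckAll_spec h0 h1 hP h.2 cl hcl

theorem ckSums_spec : ∀ {l : List ℕ}, ckSums l = true → ∀ cl ∈ l.map decCls, csum cl = 0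
  | [], _, cl, hcl => by simp at hcl
  | x :: l, h, cl, hcl => by
    rw [ckSums, Bool.and_eq_true] at h
    rw [List.map_cons, List.mem_cons] at hcl
    rcases hcl with rfl | hcl
    · have := ckSum_spec h.1
      simpa using this
    · exact ckSums_spec h.2 cl hcl

/-! ## Check of the tables -/

/-- point number `i` from a list -/
def ptOf (l : List Z4) (i : ℕ) : Z4 := l.getD i ⟨0, 0, 0, 0⟩

/-- check of a table against a list of points: one row -/
def ckTabRow (nl : List (ℤ × ℤ)) (s : Bool) (tab i : ℕ) (a : Z4) : List Z4 → ℕ → Bool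
  | [], _ => true
  | b :: l, j => and (decide (nl.getD (look tab i j) (0, 0) = swn s (a.sub b).nrm))
      (ckTabRow nl s tab i a l (j + 1))

/-- check of a table against a list of points -/
def ckTab (nl : List (ℤ × ℤ)) (s : Bool) (tab : ℕ) (L : List Z4) : List Z4 → ℕ → Bool
  | [], _ => true
  | a :: l, i => and (ckTabRow nl s tab i a L 0) (ckTab nl s tab L l (i + 1))

theorem ckTabRow_spec {nl : List (ℤ × ℤ)} {s : Bool} {tab i : ℕ} {a : Z4} :
    ∀ {l : List Z4} {j0 : ℕ}, ckTabRow nl s tab i a l j0 = true → ∀ j (hj : j < l.length),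
      nl.getD (look tab i (j0 + j)) (0, 0) = swn s (a.sub l[j]).nrm
  | [], _, _, j, hj => by simp at hj
  | b :: l, j0, h, j, hj => by
    rw [ckTabRow, Bool.and_eq_true, decide_eq_true_eq] at h
    cases j with
    | zero => exact h.1
    | succ j =>
      have := ckTabRow_spec h.2 j (by simpa using hj)
      have e : j0 + 1 + j = j0 + (j + 1) := by omega
      rw [e] at this
      exact this

theorem ckTab_spec {nl : List (ℤ × ℤ)} {s : Bool} {tab : ℕ} {L : List Z4} :
    ∀ {l : List Z4} {i0 : ℕ}, ckTab nl s tab L l i0 = true → ∀ i (hi : i < l.length),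
      ∀ j (hj : j < L.length),
      nl.getD (look tab (i0 + i) j) (0, 0) = swn s (l[i].sub L[j]).nrm
  | [], _, _, i, hi => by simp at hi
  | a :: l, i0, h, i, hi => by
    intro j hj
    rw [ckTab, Bool.and_eq_true] at h
    cases i with
    | zero =>
      have := ckTabRow_spec h.1 j hj
      rw [zero_add] at this
      exact this
    | succ i =>
      have := ckTab_spec h.2 i (by simpa using hi) j hj
      have e : i0 + 1 + i = i0 + (i + 1) := by omega
      rw [e] at this
      exact this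

theorem tabOK_of {nl : List (ℤ × ℤ)} {s : Bool} {tab : ℕ} {L : List Z4}
    (h : ckTab nl s tab L L 0 = true) : TabOK (ptOf L) L.length nl s tab := by
  intro i hi j hj
  have := ckTab_spec h i hi j hj
  rw [zero_add] at this
  unfold ptOf
  rw [this, List.getD_eq_getElem _ _ hi, List.getD_eq_getElem _ _ hj]

/-- different points -/
def ckDiffRow (nl : List (ℤ × ℤ)) (tab i : ℕ) : ℕ → Bool
  | 0 => true
  | j + 1 => and (or (Nat.beq i j) (decide (nl.getD (look tab i j) (0, 0) ≠ (0, 0))))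
      (ckDiffRow nl tab i j)

/-- different points -/
def ckDiff (nl : List (ℤ × ℤ)) (tab n : ℕ) : ℕ → Bool
  | 0 => true
  | i + 1 => and (ckDiffRow nl tab i n) (ckDiff nl tab n i)

theorem ckDiffRow_spec {nl : List (ℤ × ℤ)} {tab i : ℕ} : ∀ {n : ℕ},
    ckDiffRow nl tab i n = true → ∀ j < n, i ≠ j → nl.getD (look tab i j) (0, 0) ≠ (0, 0)
  | 0, _, j, hj => by omega
  | n + 1, h, j, hj => by
    intro hij
    rw [ckDiffRow, Bool.and_eq_true, Bool.or_eq_true, decide_eq_true_eq] at h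
    rcases Nat.lt_succ_iff_lt_or_eq.1 hj with h1 | rfl
    · exact ckDiffRow_spec h.2 j h1 hij
    · exact h.1.resolve_left fun h2 => hij (Nat.eq_of_beq_eq_true h2)

theorem ckDiff_spec {nl : List (ℤ × ℤ)} {tab n : ℕ} : ∀ {m : ℕ},
    ckDiff nl tab n m = true → ∀ i < m, ∀ j < n, i ≠ j → nl.getD (look tab i j) (0, 0) ≠ (0, 0)
  | 0, _, i, hi => by omega
  | m + 1, h, i, hi => by
    rw [ckDiff, Bool.and_eq_true] at h
    rcases Nat.lt_succ_iff_lt_or_eq.1 hi with h1 | rfl
    · exact ckDiff_spec h.2 i h1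
    · exact ckDiffRow_spec h.1

theorem diff_of {nl : List (ℤ × ℤ)} {tab : ℕ} {P : ℕ → Z4} {n : ℕ}
    (h0 : TabOK P n nl false tab) (h : ckDiff nl tab n n = true) :
    ∀ i < n, ∀ j < n, i ≠ j → ((P i).sub (P j)).nrm ≠ (0, 0) := by
  intro i hi j hj hij
  have h1 := ckDiff_spec h i hi j hj hij
  rw [h0 i hi j hj] at h1
  exact h1

end Pool.Agent.H18FC
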