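import Pool.Agent.Helper18_FC.Norm

/-!
# The fast geometric check
-/

namespace Pool.Agent.H18FC

open Finset Pool.Agent.Helper7_UD

/-! ## Table look-up and packed vectors of codes -/

/-- look-up in a packed table, fields of 8 bits, rows of 64 fields -/
def look (tab a b : ℕ) : ℕ :=
  Nat.mod (Nat.shiftRight tab (Nat.add (Nat.mul a 512) (Nat.mul b 8))) 256

/-- one row of codes -/
def vrow (tab a : ℕ) : List ℕ → ℕ → ℕ
  | [], acc => acc
  | b :: l, acc => vrow tab a l (Nat.add (Nat.mul acc 256) (look tab a b))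

/-- the packed vector of all codes of pairs -/
def vec (tab : ℕ) : List ℕ → ℕ → ℕ
  | [], acc => acc
  | a :: l, acc => vec tab l (vrow tab a l acc)

/-- the list of all codes of pairs -/
def codes (tab : ℕ) : List ℕ → List ℕ
  | [] => []
  | a :: l => l.map (look tab a) ++ codes tab l

/-- packing -/
def pack (l : List ℕ) (acc : ℕ) : ℕ := l.foldl (fun acc c => acc * 256 + c) acc

theorem vrow_eq (tab a : ℕ) : ∀ (l : List ℕ) (acc : ℕ),
    vrow tab a l acc = pack (l.map (look tab a)) acc
  | [], acc => rfl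
  | b :: l, acc => by
    rw [vrow, vrow_eq tab a l]
    rfl

theorem vec_eq (tab : ℕ) : ∀ (l : List ℕ) (acc : ℕ), vec tab l acc = pack (codes tab l) acc
  | [], acc => rfl
  | a :: l, acc => by
    rw [vec, vec_eq tab l, vrow_eq, codes]
    unfold pack
    rw [List.foldl_append]

theorem look_lt (tab a b : ℕ) : look tab a b < 256 := Nat.mod_lt _ (by norm_num)

theorem codes_lt (tab : ℕ) : ∀ (l : List ℕ), ∀ c ∈ codes tab l, c < 256
  | [], c, hc => by simp [codes] at hc
  | a :: l, c, hc => by
    rw [codes, List.mem_append] at hc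
    rcases hc with hc | hc
    · obtain ⟨b, -, rfl⟩ := List.mem_map.1 hc
      exact look_lt _ _ _
    · exact codes_lt tab l c hc

theorem codes_length (tab tab' : ℕ) : ∀ (l l' : List ℕ), l.length = l'.length →
    (codes tab l).length = (codes tab' l').length
  | [], [], _ => rfl
  | a :: l, b :: l', h => by
    have h' : l.length = l'.length := by simpa using h
    rw [codes, codes, List.length_append, List.length_append, List.length_map, List.length_map,
      codes_length tab tab' l l' h', h']
  | [], _ :: _, h => by simp at h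
  | _ :: _, [], h => by simp at h

theorem pack_inj : ∀ (l l' : List ℕ) (a a' : ℕ), l.length = l'.length → (∀ c ∈ l, c < 256) →
    (∀ c ∈ l', c < 256) → pack l a = pack l' a' → a = a' ∧ l = l'
  | [], [], a, a', _, _, _, h => ⟨h, rfl⟩
  | c :: l, c' :: l', a, a', hl, h1, h2, h => by
    have h3 : pack l (a * 256 + c) = pack l' (a' * 256 + c') := h
    obtain ⟨h4, h5⟩ := pack_inj l l' _ _ (by simpa using hl)
      (fun c hc => h1 c (List.mem_cons_of_mem _ hc)) (fun c hc => h2 c (List.mem_cons_of_mem _ hc))
      h3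
    have h6 := h1 c List.mem_cons_self
    have h7 := h2 c' List.mem_cons_self
    have h8 : a = a' ∧ c = c' := by omega
    exact ⟨h8.1, by rw [h5, h8.2]⟩
  | [], _ :: _, _, _, h, _, _, _ => by simp at h
  | _ :: _, [], _, _, h, _, _, _ => by simp at h

theorem codes_get (tab tab' : ℕ) : ∀ (S T : List ℕ), S.length = T.length →
    codes tab' S = codes tab T → ∀ i j (_ : i < j) (hj : j < S.length) (hj' : j < T.length),
    look tab T[i] T[j] = look tab' S[i] S[j]
  | [], _, _, _, _, _, _, hj, _ => by simp at hj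
  | _ :: _, [], h, _, _, _, _, _, _ => by simp at h
  | a :: S, b :: T, hl, h, i, j, hij, hj, hj' => by
    have hl' : S.length = T.length := by simpa using hl
    rw [codes, codes] at h
    obtain ⟨h1, h2⟩ := List.append_inj h (by rw [List.length_map, List.length_map, hl'])
    match i, j, hij with
    | 0, j + 1, _ =>
      have h3 : j < S.length := by simpa using hj
      have h4 : j < T.length := by simpa using hj'
      have h5 := congrArg (fun l : List ℕ => l[j]?) h1
      simp only [List.getElem?_map, List.getElem?_eq_getElem h3, List.getElem?_eq_getElem h4,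
        Option.map_some, Option.some.injEq] at h5
      simp only [List.getElem_cons_zero, List.getElem_cons_succ]
      exact h5.symm
    | i + 1, j + 1, hij =>
      simp only [List.getElem_cons_succ]
      exact codes_get tab tab' S T hl' h2 i j (by omega) (by simpa using hj) (by simpa using hj')

theorem vec_get {tab tab' : ℕ} {S T : List ℕ} (hl : S.length = T.length)
    (h : vec tab' S 1 = vec tab T 1) : ∀ i j (_ : i < j) (hj : j < S.length) (hj' : j < T.length),
    look tab T[i] T[j] = look tab' S[i] S[j] := by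
  rw [vec_eq, vec_eq] at h
  have h1 := (pack_inj _ _ _ _ (codes_length tab' tab S T hl) (codes_lt _ _) (codes_lt _ _) h).2
  exact codes_get tab tab' S T hl h1

/-! ## The table of norms -/

/-- a table whose codes determine the norms (with the sign `s`) -/
def TabOK (P : ℕ → Z4) (n : ℕ) (nl : List (ℤ × ℤ)) (s : Bool) (tab : ℕ) : Prop :=
  ∀ i < n, ∀ j < n, nl.getD (look tab i j) (0, 0) = swn s ((P i).sub (P j)).nrm

/-- all members of the list are smaller than `n` -/
def allLt (n : ℕ) : List ℕ → Bool
  | [] => true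
  | a :: l => and (Nat.ble (Nat.succ a) n) (allLt n l)

theorem allLt_spec {n : ℕ} : ∀ {l : List ℕ}, allLt n l = true → ∀ v ∈ l, v < n
  | [], _, v, hv => by simp at hv
  | a :: l, h, v, hv => by
    rw [allLt, Bool.and_eq_true] at h
    rcases List.mem_cons.1 hv with rfl | hv
    · exact Nat.le_of_ble_eq_true h.1
    · exact allLt_spec h.2 v hv

/-- equal lengths -/
def sameLen : List ℕ → List ℕ → Bool
  | [], [] => true
  | _ :: l, _ :: l' => sameLen l l'
  | _, _ => false

theorem sameLen_spec : ∀ {l l' : List ℕ}, sameLen l l' = true → l.length = l'.length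
  | [], [], _ => rfl
  | _ :: l, _ :: l', h => by
    rw [List.length_cons, List.length_cons, sameLen_spec (l := l) (l' := l') h]
  | [], _ :: _, h => by simp [sameLen] at h
  | _ :: _, [], h => by simp [sameLen] at h

/-- the members -/
def ckMem (tab n : ℕ) (S : List ℕ) (v0 v1 : ℕ) : List (List ℕ × (Bool × Bool) × ℤ) → Bool
  | [] => true
  | m :: ms => and (and (sameLen S m.1) (and (allLt n m.1)
      (Nat.beq (match m.2.1.2 with | true => v1 | false => v0) (vec tab m.1 1))))
      (ckMem tab n S v0 v1 ms)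

/-- the first two points are different -/
def ckNe : List ℕ → Bool
  | a :: b :: _ => not (Nat.beq a b)
  | [_] => true
  | [] => false

/-- the fast check of a class -/
def ckN (tab tab' n : ℕ) (cl : Cls) : Bool :=
  and (and (allLt n cl.1) (ckNe cl.1)) (ckMem tab n cl.1 (vec tab cl.1 1) (vec tab' cl.1 1) cl.2)

/-- what the check says -/
def GeoOK (P : ℕ → Z4) (n : ℕ) (cl : Cls) : Prop :=
  (∀ v ∈ cl.1, v < n) ∧ ∀ m ∈ cl.2, (∀ v ∈ m.1, v < n) ∧
    ∃ c, ckMv P (c, m.2.1.2) cl.1 m.1 = true

theorem ckMem_spec {P : ℕ → Z4} {n : ℕ} {nl : List (ℤ × ℤ)} {tab tab' : ℕ}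
    (h0 : TabOK P n nl false tab) (h1 : TabOK P n nl true tab')
    (hP : ∀ i < n, ∀ j < n, i ≠ j → ((P i).sub (P j)).nrm ≠ (0, 0)) {S : List ℕ}
    (hS : ∀ v ∈ S, v < n) (hne : ckNe S = true) :
    ∀ ms : List (List ℕ × (Bool × Bool) × ℤ),
      ckMem tab n S (vec tab S 1) (vec tab' S 1) ms = true →
      ∀ m ∈ ms, (∀ v ∈ m.1, v < n) ∧ ∃ c, ckMv P (c, m.2.1.2) S m.1 = true
  | [], _, m, hm => by simp at hm
  | m' :: ms, h, m, hm => by
    rw [ckMem, Bool.and_eq_true, Bool.and_eq_true, Bool.and_eq_true] at h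
    obtain ⟨⟨h2, h3, h4⟩, h5⟩ := h
    rcases List.mem_cons.1 hm with rfl | hm
    · have hT := allLt_spec h3
      have hl := sameLen_spec h2
      refine ⟨hT, ?_⟩
      have hget : ∀ i j (_ : i < j) (hj : j < S.length) (hj' : j < m.1.length),
          ((P m.1[i]).sub (P m.1[j])).nrm = swn m.2.1.2 ((P S[i]).sub (P S[j])).nrm := by
        intro i j hij hj hj'
        have a1 : m.1[i] < n := hT _ (List.getElem_mem _)
        have a2 : m.1[j] < n := hT _ (List.getElem_mem _)
        have b1 : S[i] < n := hS _ (List.getElem_mem _)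
        have b2 : S[j] < n := hS _ (List.getElem_mem _)
        have e0 := h0 _ a1 _ a2
        cases hs : m.2.1.2 with
        | true =>
          rw [hs] at h4
          have h6 := vec_get hl (Nat.eq_of_beq_eq_true h4) i j hij hj hj'
          rw [h6, h1 _ b1 _ b2] at e0
          exact e0.symm
        | false =>
          rw [hs] at h4
          have h6 := vec_get hl (Nat.eq_of_beq_eq_true h4) i j hij hj hj'
          rw [h6, h0 _ b1 _ b2] at e0
          exact e0.symm
      refine mv_of_nrm m.2.1.2 S m.1 hl ?_ hget ?_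
      · rintro rfl
        simp [ckNe] at hne
      · intro h7
        match S, hS, hne, hl, hget with
        | [], _, hne, _, _ => simp [ckNe] at hne
        | [a], _, _, hl, _ => rw [← hl] at h7; simp at h7
        | a :: b :: S, hS, hne, hl, hget =>
          rw [hget 0 1 (by norm_num) (by simp) h7]
          have hab : a ≠ b := by
            rintro rfl
            simp [ckNe] at hne
          have h8 := hP a (hS a (by simp)) b (hS b (by simp)) hab
          simp only [List.getElem_cons_zero, List.getElem_cons_succ]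
          unfold swn
          split_ifs with h9
          · intro h10
            rw [Prod.mk.injEq, neg_eq_zero] at h10
            exact h8 (Prod.ext h10.1 h10.2)
          · exact h8
    · exact ckMem_spec h0 h1 hP hS hne ms h5 m hm

theorem ckN_spec {P : ℕ → Z4} {n : ℕ} {nl : List (ℤ × ℤ)} {tab tab' : ℕ}
    (h0 : TabOK P n nl false tab) (h1 : TabOK P n nl true tab')
    (hP : ∀ i < n, ∀ j < n, i ≠ j → ((P i).sub (P j)).nrm ≠ (0, 0)) {cl : Cls}
    (h : ckN tab tab' n cl = true) : GeoOK P n cl := by
  rw [ckN, Bool.and_eq_true, Bool.and_eq_true] at h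
  obtain ⟨⟨h2, h3⟩, h4⟩ := h
  have hS := allLt_spec h2
  exact ⟨hS, ckMem_spec h0 h1 hP hS h3 cl.2 h4⟩

/-! ## The theorem -/

theorem certN (n : ℕ) (P : ℕ → Z4) (adj : ℕ → ℕ → Bool)
    (hadj : ∀ v < n, ∀ w < n, adj v w = true → ((P v).sub (P w)).nrm = (144, 0)) (D : ℤ)
    (hD : 0 < D) (v0 : ℕ) (hv0 : v0 < n) (ms : List (List ℕ × (Bool × Bool) × ℤ))
    (cs : List Cls) (h0 : GeoOK P n ([v0], ms)) (h0s : csum ([v0], ms) = 4 * D)
    (hc : ∀ cl ∈ cs, GeoOK P n cl) (hs : ∀ cl ∈ cs, csum cl = 0)
    (hineq : ∀ I : Finset ℕ, I ⊆ Finset.range n → (∀ v ∈ I, ∀ w ∈ I, adj v w = false) →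
      val (([v0], ms) :: cs) I ≤ D) : Avg4 := by
  classical
  let fl : List ℕ → (List ℕ × (Bool × Bool) × ℤ) → Bool := fun S m =>
    if h : ∃ c, ckMv P (c, m.2.1.2) S m.1 = true then h.choose else false
  let F : Cls → Cls := fun cl => (cl.1, cl.2.map fun m => (m.1, (fl cl.1 m, m.2.1.2), m.2.2))
  have hck : ∀ cl, GeoOK P n cl → ckCls P n (F cl) = true := by
    rintro cl ⟨h1, h2⟩
    rw [ckCls, Bool.and_eq_true, List.all_eq_true, List.all_eq_true]
    refine ⟨fun v hv => by simpa using h1 v hv, fun m' hm' => ?_⟩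
    obtain ⟨m, hm, rfl⟩ := List.mem_map.1 hm'
    obtain ⟨h3, h4⟩ := h2 m hm
    rw [Bool.and_eq_true, List.all_eq_true]
    refine ⟨fun v hv => by simpa using h3 v hv, ?_⟩
    have h5 : fl cl.1 m = h4.choose := by simp only [fl, dif_pos h4]
    change ckMv P (fl cl.1 m, m.2.1.2) cl.1 m.1 = true
    rw [h5]
    exact h4.choose_spec
  have hcs : ∀ cl, csum (F cl) = csum cl := by
    intro cl
    simp only [csum, F, List.map_map]
    rfl
  have hval : ∀ (l : List Cls) (I : Finset ℕ), val (l.map F) I = val l I := by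
    intro l I
    unfold val
    rw [List.map_map]
    congr 1
    refine List.map_congr_left fun cl _ => ?_
    simp only [Function.comp_apply, F, List.map_map]
    rfl
  refine cert n P adj hadj D hD v0 hv0 (F ([v0], ms)).2 (cs.map F) (hck _ h0) ?_ ?_ ?_ ?_
  · rw [← h0s, ← hcs ([v0], ms)]
  · intro cl hcl
    obtain ⟨cl', h1, rfl⟩ := List.mem_map.1 hcl
    exact hck _ (hc cl' h1)
  · intro cl hcl
    obtain ⟨cl', h1, rfl⟩ := List.mem_map.1 hcl
    rw [hcs]
    exact hs cl' h1
  · intro I hI hind
    have h1 := hineq I hI hind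
    rw [← hval] at h1
    exact h1

end Pool.Agent.H18FC
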