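import Pool.Agent.Helper18_FC.Cert
import Pool.Agent.Helper7_UD.Upper

/-!
# The fractional chromatic number of the unit distance graph on `K × K`
-/

namespace Pool.Agent.H18FC

open Finset Pool.Agent.Helper7_UD

/-- The fractional chromatic number of a finite subgraph is at most four. -/
theorem fracChrom_le_four (H : (unitDistanceGraph K).Subgraph) : fracChrom H.coe ≤ 4 := by
  obtain ⟨C⟩ := colorable_four
  have hcol : H.coe.Colorable 4 := ⟨C.comp H.hom⟩
  obtain ⟨t, ht, ht4⟩ := fracWeights_of_colorable hcol
  exact (csInf_le (fracWeights_bddBelow _) ht).trans (by exact_mod_cast ht4)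

/-- The final step. -/
theorem isLUB_of_avg (h : Avg4) : IsLUB (finiteValues (unitDistanceGraph K)) 4 := by
  classical
  constructor
  · rintro t ⟨H, _, rfl⟩
    exact fracChrom_le_four H
  · intro b hb
    by_contra hcon
    push Not at hcon
    -- `4 ≤ (1 + ε) b` for all `ε > 0`
    have key : ∀ ε : ℝ, 0 < ε → 4 ≤ (1 + ε) * b := by
      intro ε hε
      obtain ⟨W, m, hm, hm1, hI⟩ := h ε hε
      set H := (⊤ : (unitDistanceGraph K).Subgraph).induce (W : Set (K × K)) with hH
      have hfin : H.verts.Finite := W.finite_toSet
      have hval : fracChrom H.coe ≤ b := hb ⟨H, hfin, rfl⟩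
      obtain ⟨C⟩ := colorable_four
      have hcol : H.coe.Colorable 4 := ⟨C.comp H.hom⟩
      obtain ⟨t0, ht0, _⟩ := fracWeights_of_colorable hcol
      have hlow : 4 / (1 + ε) ≤ fracChrom H.coe := by
        refine le_csInf ⟨t0, ht0⟩ fun t ht => ?_
        rw [div_le_iff₀ (by positivity), mul_comm]
        exact le_of_weights W m hm hm1 4 ε (by norm_num) hI t ht
      have h1 := hlow.trans hval
      rw [div_le_iff₀ (by positivity)] at h1
      linarith
    have hb0 : 0 < b := by
      have := key 1 one_pos
      linarith
    have h2 := key ((4 - b) / (2 * b)) (by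
      have : 0 < 4 - b := by linarith
      positivity)
    have h3 : (1 + (4 - b) / (2 * b)) * b = b + (4 - b) / 2 := by
      field_simp
    rw [h3] at h2
    linarith

end Pool.Agent.H18FC
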