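import Pool.Agent.Helper18_FC.Cert

/-!
# Congruence from the pairwise norms
-/

namespace Pool.Agent.H18FC

open Finset Pool.Agent.Helper7_UD

/-- conjugation or identity -/
noncomputable def cjc (c : Bool) (z : ℂ) : ℂ := if c then (starRingEnd ℂ) z else z

theorem planar {ι : Type} (z w : ι → ℂ) (h0 : ∀ i, (z i).re = (w i).re)
    (h1 : ∀ i j, (z i).im * (z j).im = (w i).im * (w j).im) :
    ∃ c, ∀ i, w i = cjc c (z i) := by
  by_cases h : ∀ i, (z i).im = 0
  · refine ⟨false, fun i => ?_⟩
    have h2 := h1 i i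
    rw [h i, zero_mul] at h2
    have h3 : (w i).im = 0 := by
      rcases mul_eq_zero.1 h2.symm with h | h <;> exact h
    unfold cjc
    exact Complex.ext (h0 i).symm (by simp [h i, h3])
  · push Not at h
    obtain ⟨i, hi⟩ := h
    have h2 := h1 i i
    have h3 : ((w i).im - (z i).im) * ((w i).im + (z i).im) = 0 := by ring_nf; linarith
    rcases mul_eq_zero.1 h3 with h4 | h4
    · refine ⟨false, fun j => Complex.ext (h0 j).symm ?_⟩
      have h5 := h1 i j
      have h6 : (w i).im = (z i).im := by linarith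
      rw [h6] at h5
      have h7 := mul_left_cancel₀ hi h5
      unfold cjc
      simp [h7]
    · refine ⟨true, fun j => Complex.ext (by unfold cjc; simp [h0 j]) ?_⟩
      have h5 := h1 i j
      have h6 : (w i).im = -(z i).im := by linarith
      rw [h6] at h5
      have h7 : (z j).im = -(w j).im := by
        apply mul_left_cancel₀ hi
        linarith
      unfold cjc
      simp [h7]

/-- planar congruence -/
theorem planar_congr {ι : Type} (a b : ι → ℂ) (i0 i1 : ι)
    (h : ∀ i j, Complex.normSq (a i - a j) = Complex.normSq (b i - b j)) (hne : a i1 ≠ a i0) :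
    ∃ c, ∀ i, (b i - b i0) * cjc c (a i1 - a i0) = (b i1 - b i0) * cjc c (a i - a i0) := by
  set u := a i1 - a i0 with hu
  set v := b i1 - b i0 with hv
  have hu0 : u ≠ 0 := sub_ne_zero.2 hne
  have hun : Complex.normSq u ≠ 0 := fun h0 => hu0 (Complex.normSq_eq_zero.1 h0)
  have huv : Complex.normSq u = Complex.normSq v := h i1 i0
  have hv0 : v ≠ 0 := fun h0 => by
    rw [h0, map_zero] at huv
    exact hun huv
  set z : ι → ℂ := fun i => (a i - a i0) / u with hz
  set w : ι → ℂ := fun i => (b i - b i0) / v with hw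
  have hd : ∀ i j, Complex.normSq (z i - z j) = Complex.normSq (w i - w j) := by
    intro i j
    have e1 : z i - z j = (a i - a j) / u := by rw [hz]; ring
    have e2 : w i - w j = (b i - b j) / v := by rw [hw]; ring
    rw [e1, e2, map_div₀, map_div₀, h i j, huv]
  have hz0 : z i0 = 0 := by rw [hz]; simp
  have hw0 : w i0 = 0 := by rw [hw]; simp
  have hz1 : z i1 = 1 := div_self hu0
  have hw1 : w i1 = 1 := div_self hv0
  have hn : ∀ i, Complex.normSq (z i) = Complex.normSq (w i) := by
    intro i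
    have := hd i i0
    rwa [hz0, hw0, sub_zero, sub_zero] at this
  have hre : ∀ i, (z i).re = (w i).re := by
    intro i
    have h1 := hd i i1
    have h2 := hn i
    rw [hz1, hw1] at h1
    simp only [Complex.normSq_apply, Complex.sub_re, Complex.sub_im, Complex.one_re,
      Complex.one_im] at h1 h2
    linarith
  have him : ∀ i j, (z i).im * (z j).im = (w i).im * (w j).im := by
    intro i j
    have h1 := hd i j
    have h2 := hn i
    have h3 := hn j
    have h4 := hre i
    have h5 := hre j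
    simp only [Complex.normSq_apply, Complex.sub_re, Complex.sub_im] at h1 h2 h3
    rw [h4, h5] at h1
    rw [h4] at h2
    rw [h5] at h3
    linarith
  obtain ⟨c, hc⟩ := planar z w hre him
  refine ⟨c, fun i => ?_⟩
  have h1 := hc i
  have h2 : cjc c (z i) = cjc c (a i - a i0) / cjc c u := by
    rw [hz]
    unfold cjc
    cases c <;> simp
  have hcu : cjc c u ≠ 0 := by
    unfold cjc
    cases c
    · simpa using hu0
    · simpa using hu0
  rw [h2, hw] at h1
  have h3 : (b i - b i0) / v = cjc c (a i - a i0) / cjc c u := h1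
  rw [div_eq_div_iff hv0 hcu] at h3
  rw [h3]
  ring

/-- the square root of 33 is irrational -/
theorem sq33 {p q : ℤ} (h : (p : ℝ) + q * (s3 * s11) = 0) : p = 0 ∧ q = 0 := by
  have h33 : s3 * s11 = Real.sqrt 33 := by
    unfold s3 s11
    rw [← Real.sqrt_mul (by norm_num)]
    norm_num
  have hirr : Irrational (Real.sqrt 33) := by
    have : ¬ IsSquare (33 : ℕ) := by
      rintro ⟨r, hr⟩
      have h1 : r ≤ 5 := by nlinarith
      interval_cases r <;> omega
    have h2 := (irrational_sqrt_natCast_iff (n := 33)).2 this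
    exact_mod_cast h2
  have hq : q = 0 := by
    by_contra hq
    have hq' : (q : ℝ) ≠ 0 := by exact_mod_cast hq
    apply hirr
    refine ⟨-(p : ℚ) / q, ?_⟩
    rw [← h33]
    push_cast
    field_simp
    linarith
  subst hq
  have : (p : ℝ) = 0 := by simpa using h
  exact ⟨by exact_mod_cast this, rfl⟩

theorem emb_inj {u v : Z4} (h : u.emb.1 = v.emb.1) : u = v := by
  have hre := congrArg Complex.re h
  have him := congrArg Complex.im h
  unfold Z4.emb at hre him
  have h3 := s3_sq
  have h1 : ((u.p - v.p : ℤ) : ℝ) + (u.q - v.q : ℤ) * (s3 * s11) = 0 := by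
    push_cast
    have : (u.p : ℝ) + u.q * (s3 * s11) = v.p + v.q * (s3 * s11) := hre
    linarith
  have h2 : ((3 * (u.r - v.r) : ℤ) : ℝ) + (u.t - v.t : ℤ) * (s3 * s11) = 0 := by
    push_cast
    have h4 : (u.r : ℝ) * s3 + u.t * s11 = v.r * s3 + v.t * s11 := him
    have h5 : ((u.r : ℝ) * s3 + u.t * s11 - (v.r * s3 + v.t * s11)) * s3 = 0 := by
      rw [h4]; ring
    linear_combination h5 - ((u.r : ℝ) - v.r) * h3
  obtain ⟨a, b⟩ := sq33 h1
  obtain ⟨c, d⟩ := sq33 h2
  rcases u with ⟨p, q, r, t⟩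
  rcases v with ⟨p', q', r', t'⟩
  simp only at a b c d
  simp only [Z4.mk.injEq]
  omega

/-- exchange of the sign of the second coordinate of a norm -/
def swn (s : Bool) (n : ℤ × ℤ) : ℤ × ℤ := if s then (n.1, -n.2) else n

theorem nrm_cj (c s : Bool) (u : Z4) : (u.cj (c, s)).nrm = swn s u.nrm := by
  cases c <;> cases s <;> unfold Z4.cj Z4.nrm swn <;> apply Prod.ext <;> simp <;> ring

theorem cj_sub' (s : Bool × Bool) (u v : Z4) : (u.cj s).sub (v.cj s) = (u.sub v).cj s := by
  rcases s with ⟨c, s⟩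
  cases c <;> cases s <;> unfold Z4.cj Z4.sub <;> simp <;> ring_nf <;> trivial

theorem normSq_emb (u : Z4) : Complex.normSq u.emb.1 = (u.nrm.1 : ℝ) + u.nrm.2 * (s3 * s11) := by
  have h := congrArg Prod.fst (emb_nrm u)
  rw [Prod.fst_mul, cc_fst, Complex.mul_conj] at h
  exact Complex.ofReal_injective h

theorem emb1_cj (c s : Bool) (u : Z4) : (u.cj (c, s)).emb.1 = cjc c (u.cj (false, s)).emb.1 := by
  unfold cjc
  cases c
  · simp
  · have h := emb_cj (true, false) (u.cj (false, s))
    have h2 : (u.cj (false, s)).cj (true, false) = u.cj (true, s) := by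
      cases s <;> unfold Z4.cj <;> simp
    rw [h2] at h
    rw [h]
    simp [cj, cc]

theorem Z4.emb1_sub (u v : Z4) : (u.sub v).emb.1 = u.emb.1 - v.emb.1 := by
  rw [emb_sub]; rfl

theorem Z4.emb1_mul (u v : Z4) : (u.mul v).emb.1 = u.emb.1 * v.emb.1 := by
  rw [emb_mul]; rfl

theorem ckPt_of {P : ℕ → Z4} {s : Bool × Bool} {s0 t0 : ℕ} {u0 v0 : Z4} :
    ∀ (S T : List ℕ), S.length = T.length →
      (∀ i (h : i < S.length) (h' : i < T.length),
        ((P T[i]).sub (P t0)).mul u0 = v0.mul (((P S[i]).sub (P s0)).cj s)) →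
      ckPt P s s0 t0 u0 v0 S T = true
  | [], [], _, _ => rfl
  | a :: S, b :: T, hl, h => by
    rw [ckPt, Bool.and_eq_true, decide_eq_true_eq]
    refine ⟨h 0 (by simp) (by simp), ckPt_of S T (by simpa using hl) fun i h1 h2 => ?_⟩
    exact h (i + 1) (by simpa using h1) (by simpa using h2)
  | [], _ :: _, h, _ => by simp at h
  | _ :: _, [], h, _ => by simp at h

/-- pairwise norms determine the move -/
theorem mv_of_nrm {P : ℕ → Z4} (s : Bool) (S T : List ℕ) (hl : S.length = T.length)
    (hS : S ≠ [])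
    (h : ∀ i j (_ : i < j) (hi : j < S.length) (hj : j < T.length),
      ((P T[i]).sub (P T[j])).nrm = swn s ((P S[i]).sub (P S[j])).nrm)
    (hne : ∀ (h1 : 1 < T.length), ((P T[0]).sub (P T[1])).nrm ≠ (0, 0)) :
    ∃ c, ckMv P (c, s) S T = true := by
  match S, T, hl, hS, h, hne with
  | [], _, _, hS, _, _ => exact (hS rfl).elim
  | _ :: _, [], hl, _, _, _ => simp at hl
  | [a], [b], _, _, _, _ => exact ⟨false, rfl⟩
  | [a], _ :: _ :: _, hl, _, _, _ => simp at hl
  | _ :: _ :: _, [_], hl, _, _, _ => simp at hl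
  | s0 :: s1 :: S, t0 :: t1 :: T, hl, _, h, hne =>
    set LS := s0 :: s1 :: S with hLS
    set LT := t0 :: t1 :: T with hLT
    have hlen : LT.length = LS.length := hl.symm
    let a : Fin LS.length → ℂ := fun i => ((P LS[i]).cj (false, s)).emb.1
    let b : Fin LS.length → ℂ := fun i => (P (LT[(i : ℕ)]'(by rw [hlen]; exact i.2))).emb.1
    have hnorm_lt : ∀ i j : Fin LS.length, i < j →
        Complex.normSq (a i - a j) = Complex.normSq (b i - b j) := by
      intro i j hij
      have h1 := h i j hij j.2 (by rw [hlen]; exact j.2)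
      have e1 : a i - a j = (((P LS[i]).sub (P LS[j])).cj (false, s)).emb.1 := by
        rw [← cj_sub', Z4.emb1_sub]
      have e2 : b i - b j = ((P (LT[(i : ℕ)]'(by rw [hlen]; exact i.2))).sub
          (P (LT[(j : ℕ)]'(by rw [hlen]; exact j.2)))).emb.1 := by
        rw [Z4.emb1_sub]
      rw [e1, e2, normSq_emb, normSq_emb, nrm_cj, h1]
      rfl
    have hnorm : ∀ i j : Fin LS.length,
        Complex.normSq (a i - a j) = Complex.normSq (b i - b j) := by
      intro i j
      rcases lt_trichotomy i j with hij | hij | hij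
      · exact hnorm_lt i j hij
      · subst hij; simp
      · have := hnorm_lt j i hij
        rw [← Complex.normSq_neg, neg_sub, this, ← Complex.normSq_neg, neg_sub]
    have hz : (0 : ℕ) < LS.length := by rw [hLS]; simp
    have ho : (1 : ℕ) < LS.length := by rw [hLS]; simp
    have hab := hnorm ⟨1, ho⟩ ⟨0, hz⟩
    have hbne : b ⟨1, ho⟩ ≠ b ⟨0, hz⟩ := by
      intro h0
      have h1 : P t1 = P t0 := emb_inj h0
      apply hne (by rw [hLT]; simp)
      change ((P t0).sub (P t1)).nrm = (0, 0)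
      rw [h1]
      unfold Z4.sub Z4.nrm
      simp
    have hane : a ⟨1, ho⟩ ≠ a ⟨0, hz⟩ := by
      intro h0
      rw [h0, sub_self, map_zero] at hab
      exact hbne (sub_eq_zero.1 (Complex.normSq_eq_zero.1 hab.symm))
    obtain ⟨c, hc⟩ := planar_congr a b ⟨0, hz⟩ ⟨1, ho⟩ hnorm hane
    refine ⟨c, ?_⟩
    have hn1 : (((P s1).sub (P s0)).cj (c, s)).nrm = ((P t1).sub (P t0)).nrm := by
      have h1 := h 0 1 (by norm_num) ho (by rw [hlen]; exact ho)
      have e : ∀ u v : Z4, (u.sub v).nrm = (v.sub u).nrm := by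
        intro u v
        unfold Z4.sub Z4.nrm
        apply Prod.ext <;> simp <;> ring
      rw [nrm_cj, e (P s1), e (P t1)]
      exact h1.symm
    rw [ckMv, Bool.and_eq_true, Bool.and_eq_true, decide_eq_true_eq, decide_eq_true_eq]
    refine ⟨hn1, ?_, ?_⟩
    · intro h4
      set v0 := (P t1).sub (P t0) with hv0
      have h5 : ((v0.nrm.1 : ℝ) + v0.nrm.2 * (s3 * s11)) *
          ((v0.nrm.1 : ℝ) - v0.nrm.2 * (s3 * s11)) = 0 := by
        have e1 : ((v0.nrm.1 : ℝ) + v0.nrm.2 * (s3 * s11)) *
          ((v0.nrm.1 : ℝ) - v0.nrm.2 * (s3 * s11)) =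
            (v0.nrm.1 : ℝ) * v0.nrm.1 - 33 * (v0.nrm.2 * v0.nrm.2) := by
          linear_combination (-((v0.nrm.2 : ℝ) * v0.nrm.2) * (s11 * s11)) * s3_sq -
            3 * ((v0.nrm.2 : ℝ) * v0.nrm.2) * s11_sq
        rw [e1]
        have : ((v0.nrm.1 * v0.nrm.1 : ℤ) : ℝ) = ((33 * (v0.nrm.2 * v0.nrm.2) : ℤ) : ℝ) := by
          exact_mod_cast h4
        push_cast at this
        linarith
      have h6 : v0.nrm.1 = 0 ∧ v0.nrm.2 = 0 := by
        rcases mul_eq_zero.1 h5 with h6 | h6
        · exact sq33 h6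
        · have h7 : (v0.nrm.1 : ℝ) + ((-v0.nrm.2 : ℤ) : ℝ) * (s3 * s11) = 0 := by
            push_cast; linarith
          have h8 := sq33 h7
          exact ⟨h8.1, by omega⟩
      have h7 := normSq_emb v0
      rw [h6.1, h6.2] at h7
      have h8 : v0.emb.1 = 0 := Complex.normSq_eq_zero.1 (by rw [h7]; simp)
      rw [hv0, Z4.emb1_sub] at h8
      exact hbne (sub_eq_zero.1 h8)
    · refine ckPt_of S T (by simpa [hLS, hLT] using hl) fun i h1 h2 => emb_inj ?_
      have hi : i + 2 < LS.length := by rw [hLS]; simpa using h1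
      have h3 := hc ⟨i + 2, hi⟩
      have hcj : ∀ u v : Z4, ((u.sub v).cj (c, s)).emb.1 =
          cjc c ((u.cj (false, s)).emb.1 - (v.cj (false, s)).emb.1) := by
        intro u v
        rw [emb1_cj, ← cj_sub', Z4.emb1_sub]
      rw [Z4.emb1_mul, Z4.emb1_mul, hcj, hcj, Z4.emb1_sub, Z4.emb1_sub]
      exact h3

end Pool.Agent.H18FC
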